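import Mathlib
import Pool.Agent.N646.BX.Stm

/-!
# BX/CELL: the scale on which `n` sets are equidistributed in cells
-/

set_option autoImplicit false

namespace Pool.Agent.N134.BXCell

open Finset Pool.Agent.N646.BX

/-! ### splitting sums -/

theorem sum_split (m k : ℕ) (f : ℕ → ℕ) :
    ∑ t ∈ range (m * k), f t = ∑ s ∈ range k, ∑ α ∈ range m, f (α + m * s) := by
  induction k with
  | zero => simp
  | succ k ih =>
    rw [Nat.mul_succ, Finset.sum_range_add, ih, Finset.sum_range_succ]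
    congr 1
    refine Finset.sum_congr rfl fun x _ => ?_
    rw [add_comm]

theorem sum_split2 (m r L : ℕ) (f : ℕ → ℕ) :
    ∑ t ∈ range (m * (r * L)), f t =
      ∑ p ∈ range m ×ˢ range r, ∑ t ∈ range L, f (p.1 + m * (p.2 * L + t)) := by
  rw [sum_split, Finset.sum_comm, Finset.sum_product]
  refine Finset.sum_congr rfl fun α _ => ?_
  rw [mul_comm r L, sum_split L r (fun s => f (α + m * s))]
  refine Finset.sum_congr rfl fun d _ => Finset.sum_congr rfl fun t _ => ?_
  congr 3
  ring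

theorem card_split (m r L : ℕ) (p : ℕ → Prop) [DecidablePred p] :
    ((range (m * (r * L))).filter p).card =
      ∑ x ∈ range m ×ˢ range r, ((range L).filter fun t => p (x.1 + m * (x.2 * L + t))).card := by
  simp only [Finset.card_filter]
  exact sum_split2 m r L fun t => if p t then 1 else 0

/-! ### pieces -/

section piece

variable (m r I l : ℕ)

theorem Lc_succ {i : ℕ} (hi : i < I) : Lc m r I l i = m * (r * Lc m r I l (i + 1)) := by
  unfold Lc
  have : I - i = (I - (i + 1)) + 1 := by omega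
  rw [this, pow_succ]
  ring

theorem Lc_pos (hm : 1 ≤ m) (hr : 1 ≤ r) (hl : 1 ≤ l) (i : ℕ) : 0 < Lc m r I l i := by
  unfold Lc
  have : 0 < m * r := Nat.mul_pos hm hr
  positivity

/-- the number of elements of `A` in a piece -/
def Np (A : Finset ℤ) (i b q : ℕ) : ℕ :=
  ((range (Lc m r I l i)).filter
    (fun t : ℕ => ((st m r I l i b q + m ^ i * t : ℕ) : ℤ) ∈ A)).card

theorem st_split {i : ℕ} (hi : i < I) (b q α d t : ℕ) :
    st m r I l (i + 1) (b + m ^ i * α) (r * q + d) + m ^ (i + 1) * t =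
      st m r I l i b q + m ^ i * (α + m * (d * Lc m r I l (i + 1) + t)) := by
  unfold st
  rw [Lc_succ m r I l hi, pow_succ]
  ring

theorem Np_cell (A : Finset ℤ) {i : ℕ} (hi : i < I) (b q α d : ℕ) :
    ((range (Lc m r I l (i + 1))).filter (fun t : ℕ =>
        ((st m r I l i b q + m ^ i * (α + m * (d * Lc m r I l (i + 1) + t)) : ℕ) : ℤ) ∈
          A)).card = Np m r I l A (i + 1) (b + m ^ i * α) (r * q + d) := by
  unfold Np
  congr 1
  refine Finset.filter_congr fun t _ => ?_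
  rw [st_split m r I l hi]

theorem Np_split (A : Finset ℤ) {i : ℕ} (hi : i < I) (b q : ℕ) :
    Np m r I l A i b q = ∑ x ∈ range m ×ˢ range r,
      Np m r I l A (i + 1) (b + m ^ i * x.1) (r * q + x.2) := by
  have h1 : Np m r I l A i b q = ((range (m * (r * Lc m r I l (i + 1)))).filter
      (fun t : ℕ => ((st m r I l i b q + m ^ i * t : ℕ) : ℤ) ∈ A)).card := by
    unfold Np
    rw [← Lc_succ m r I l hi]
  rw [h1, card_split]
  exact Finset.sum_congr rfl fun x _ => Np_cell m r I l A hi b q x.1 x.2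

/-- the density in a piece -/
noncomputable def dn (A : Finset ℤ) (i b q : ℕ) : ℝ := (Np m r I l A i b q : ℝ) / Lc m r I l i

theorem dn_split (hm : 1 ≤ m) (hr : 1 ≤ r) (hl : 1 ≤ l) (A : Finset ℤ) {i : ℕ} (hi : i < I)
    (b q : ℕ) : (m * r : ℝ) * dn m r I l A i b q = ∑ x ∈ range m ×ˢ range r,
      dn m r I l A (i + 1) (b + m ^ i * x.1) (r * q + x.2) := by
  have h1 : (0 : ℝ) < Lc m r I l (i + 1) := by exact_mod_cast Lc_pos m r I l hm hr hl (i + 1)
  have hm' : (0 : ℝ) < m := by exact_mod_cast hm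
  have hr' : (0 : ℝ) < r := by exact_mod_cast hr
  unfold dn
  rw [← Finset.sum_div, ← Nat.cast_sum, ← Np_split m r I l A hi, Lc_succ m r I l hi]
  push_cast
  field_simp

theorem dn_nonneg (A : Finset ℤ) (i b q : ℕ) : 0 ≤ dn m r I l A i b q := by
  unfold dn; positivity

theorem dn_le_one (A : Finset ℤ) (i b q : ℕ) : dn m r I l A i b q ≤ 1 := by
  unfold dn
  apply div_le_one_of_le₀ _ (by positivity)
  have : Np m r I l A i b q ≤ Lc m r I l i := by
    unfold Np
    exact (Finset.card_filter_le _ _).trans (by rw [Finset.card_range])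
  exact_mod_cast this

theorem dn_zero (A : Finset ℤ) (hA : A ⊆ Ico 0 (((m * r) ^ I * l : ℕ) : ℤ)) :
    dn m r I l A 0 0 0 = (A.card : ℝ) / ((m * r) ^ I * l : ℕ) := by
  unfold dn Np Lc
  rw [Nat.sub_zero]
  congr 2
  apply Finset.card_bij (fun (t : ℕ) _ => (t : ℤ))
  · intro t ht
    rw [Finset.mem_filter] at ht
    simpa [st] using ht.2
  · intro a _ b _ hab
    exact_mod_cast hab
  · intro z hz
    have h1 := Finset.mem_Ico.1 (hA hz)
    refine ⟨z.toNat, ?_, Int.toNat_of_nonneg h1.1⟩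
    rw [Finset.mem_filter, Finset.mem_range]
    constructor
    · have := h1.2
      zify
      rw [Int.toNat_of_nonneg h1.1]
      exact_mod_cast this
    · have : ((st m r I l 0 0 0 + m ^ 0 * z.toNat : ℕ) : ℤ) = z := by
        simp [st, Int.toNat_of_nonneg h1.1]
      rw [this]
      exact hz

end piece

theorem main : S_CELL := by
  intro n m r hm hr ε hε
  have hm' : (0 : ℝ) < m := by exact_mod_cast hm
  have hr' : (0 : ℝ) < r := by exact_mod_cast hr
  obtain ⟨I₀, hI₀⟩ := exists_nat_gt ((n : ℝ) * (m * r) / ε)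
  refine ⟨I₀ + 1, by omega, fun l hl Ω _ S A a hS hA ha => ?_⟩
  obtain ⟨I, hI⟩ : ∃ I, I = I₀ + 1 := ⟨_, rfl⟩
  rw [← hI] at hA ha ⊢
  have hT : (0 : ℝ) < ((m * r) ^ I * l : ℕ) := by
    have : 0 < m * r := Nat.mul_pos hm hr
    have : 0 < (m * r) ^ I * l := by positivity
    exact_mod_cast this
  -- the indices
  obtain ⟨P, hP⟩ : ∃ P : ℕ → Fin n → Finset (Ω × ℕ × ℕ),
    P = fun i j => S j ×ˢ (range (m ^ i) ×ˢ range (r ^ i)) := ⟨_, rfl⟩
  have hPn : ∀ i j, (P i j).Nonempty := by
    intro i j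
    rw [hP]
    refine Finset.Nonempty.product (hS j) (Finset.Nonempty.product ?_ ?_)
    · rw [Finset.nonempty_range_iff]; positivity
    · rw [Finset.nonempty_range_iff]; positivity
  have hPm : ∀ i j w b q, (w, b, q) ∈ P i j ↔ w ∈ S j ∧ b < m ^ i ∧ q < r ^ i := by
    intro i j w b q
    rw [hP]
    simp [Finset.mem_product]
  obtain ⟨s, hs⟩ : ∃ s : ℕ → Fin n → ℝ, s = fun i j =>
    (P i j).sup' (hPn i j) (fun p => dn m r I l (A p.1) i p.2.1 p.2.2) := ⟨_, rfl⟩
  have hsle : ∀ i j w b q, (w, b, q) ∈ P i j → dn m r I l (A w) i b q ≤ s i j := by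
    intro i j w b q h
    rw [hs]
    exact Finset.le_sup' (fun p : Ω × ℕ × ℕ => dn m r I l (A p.1) i p.2.1 p.2.2) h
  have hsmax : ∀ i j, ∃ w b q, (w, b, q) ∈ P i j ∧ s i j = dn m r I l (A w) i b q := by
    intro i j
    obtain ⟨p, hp1, hp2⟩ := Finset.exists_mem_eq_sup' (hPn i j)
      (fun p => dn m r I l (A p.1) i p.2.1 p.2.2)
    exact ⟨p.1, p.2.1, p.2.2, hp1, by rw [hs]; exact hp2⟩
  have hs0 : ∀ i j, 0 ≤ s i j := by
    intro i j
    obtain ⟨w, b, q, -, h⟩ := hsmax i j
    rw [h]; exact dn_nonneg _ _ _ _ _ _ _ _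
  have hs1 : ∀ i j, s i j ≤ 1 := by
    intro i j
    obtain ⟨w, b, q, -, h⟩ := hsmax i j
    rw [h]; exact dn_le_one _ _ _ _ _ _ _ _
  -- (1)
  have hsa : ∀ j, a ≤ s 0 j := by
    intro j
    obtain ⟨w, hw, hwa⟩ : ∃ w ∈ S j, a * ((m * r) ^ I * l : ℕ) ≤ ((A w).card : ℝ) := by
      by_contra hcon
      push Not at hcon
      have h1 : ∑ w ∈ S j, ((A w).card : ℝ) < ∑ w ∈ S j, a * ((m * r) ^ I * l : ℕ) :=
        Finset.sum_lt_sum_of_nonempty (hS j) hcon
      rw [Finset.sum_const, nsmul_eq_mul] at h1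
      have h2 := ha j
      linarith
    have h1 := hsle 0 j w 0 0 ((hPm 0 j w 0 0).2 ⟨hw, by simp, by simp⟩)
    rw [dn_zero m r I l (A w) (hA w)] at h1
    refine le_trans ?_ h1
    rw [le_div_iff₀ hT]
    exact hwa
  -- children
  have hchild : ∀ i < I, ∀ j w b q, (w, b, q) ∈ P i j → ∀ x ∈ range m ×ˢ range r,
      (w, b + m ^ i * x.1, r * q + x.2) ∈ P (i + 1) j := by
    intro i hi j w b q hp x hx
    obtain ⟨h1, h2, h3⟩ := (hPm _ _ _ _ _).1 hp
    obtain ⟨h4, h5⟩ := Finset.mem_product.1 hx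
    rw [Finset.mem_range] at h4 h5
    refine (hPm _ _ _ _ _).2 ⟨h1, ?_, ?_⟩
    · calc b + m ^ i * x.1 < m ^ i + m ^ i * x.1 := by omega
        _ = m ^ i * (x.1 + 1) := by ring
        _ ≤ m ^ i * m := Nat.mul_le_mul_left _ h4
        _ = m ^ (i + 1) := (pow_succ m i).symm
    · calc r * q + x.2 < r * q + r := by omega
        _ = r * (q + 1) := by ring
        _ ≤ r * r ^ i := Nat.mul_le_mul_left _ h3
        _ = r ^ (i + 1) := (pow_succ' r i).symm
  have hcard : ((range m ×ˢ range r).card : ℝ) = m * r := by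
    rw [Finset.card_product, Finset.card_range, Finset.card_range]; push_cast; ring
  -- (2)
  have hmono : ∀ i < I, ∀ j, s i j ≤ s (i + 1) j := by
    intro i hi j
    obtain ⟨w, b, q, hp, h⟩ := hsmax i j
    have h1 := dn_split m r I l hm hr hl (A w) hi b q
    have h2 : ∑ x ∈ range m ×ˢ range r, dn m r I l (A w) (i + 1) (b + m ^ i * x.1) (r * q + x.2)
        ≤ ∑ x ∈ range m ×ˢ range r, s (i + 1) j :=
      Finset.sum_le_sum fun x hx => hsle _ _ _ _ _ (hchild i hi j w b q hp x hx)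
    rw [Finset.sum_const, nsmul_eq_mul, hcard, ← h1, ← h] at h2
    exact le_of_mul_le_mul_left h2 (by positivity)
  have hsa' : ∀ i ≤ I, ∀ j, a ≤ s i j := by
    intro i
    induction i with
    | zero => exact fun _ j => hsa j
    | succ i ih => exact fun hi j => (ih (by omega) j).trans (hmono i (by omega) j)
  -- (3)
  obtain ⟨i, hi, hij⟩ : ∃ i < I, ∑ j, s (i + 1) j - ∑ j, s i j ≤ ε / (m * r) := by
    by_contra hcon
    push Not at hcon
    have h1 : ∀ k ≤ I, k * (ε / (m * r)) ≤ ∑ j, s k j := by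
      intro k
      induction k with
      | zero =>
        intro _
        simp only [Nat.cast_zero, zero_mul]
        exact Finset.sum_nonneg fun j _ => hs0 0 j
      | succ k ih =>
        intro hk
        have h2 := ih (by omega)
        have h3 := hcon k (by omega)
        push_cast
        linarith
    have h2 := h1 I le_rfl
    have h3 : ∑ j, s I j ≤ n := by
      calc ∑ j, s I j ≤ ∑ _j : Fin n, (1 : ℝ) := Finset.sum_le_sum fun j _ => hs1 I j
        _ = n := by simp
    have h4 : (n : ℝ) < I * (ε / (m * r)) := by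
      rw [div_lt_iff₀ hε] at hI₀
      rw [← mul_div_assoc, lt_div_iff₀ (by positivity), hI]
      push_cast
      nlinarith
    linarith
  refine ⟨i, hi, fun j => ?_⟩
  have hij' : s (i + 1) j ≤ s i j + ε / (m * r) := by
    have h1 : s (i + 1) j - s i j ≤ ∑ j, (s (i + 1) j - s i j) :=
      Finset.single_le_sum (f := fun j => s (i + 1) j - s i j)
        (fun j _ => by have := hmono i hi j; linarith) (Finset.mem_univ j)
    rw [Finset.sum_sub_distrib] at h1
    linarith
  -- (4)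
  obtain ⟨w, b, q, hp, h⟩ := hsmax i j
  obtain ⟨p1, p2, p3⟩ := (hPm _ _ _ _ _).1 hp
  refine ⟨w, p1, b, p2, q, p3, fun α hα d hd => ?_⟩
  rw [Np_cell m r I l (A w) hi b q α d]
  have hL : (0 : ℝ) < Lc m r I l (i + 1) := by exact_mod_cast Lc_pos m r I l hm hr hl (i + 1)
  rw [← le_div_iff₀ hL]
  change a - ε ≤ dn m r I l (A w) (i + 1) (b + m ^ i * α) (r * q + d)
  have h1 := dn_split m r I l hm hr hl (A w) hi b q
  have h2 : ∀ x ∈ range m ×ˢ range r, 0 ≤ s i j + ε / (m * r) -
      dn m r I l (A w) (i + 1) (b + m ^ i * x.1) (r * q + x.2) := by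
    intro x hx
    have := hsle _ _ _ _ _ (hchild i hi j w b q hp x hx)
    linarith
  have h3 := Finset.single_le_sum h2
    (Finset.mem_product.2 ⟨Finset.mem_range.2 hα, Finset.mem_range.2 hd⟩ :
      (α, d) ∈ range m ×ˢ range r)
  rw [Finset.sum_sub_distrib, ← h1, ← h, Finset.sum_const, nsmul_eq_mul, hcard] at h3
  have h4 : (m * r : ℝ) * (s i j + ε / (m * r)) - m * r * s i j = ε := by
    field_simp
    ring
  rw [h4] at h3
  simp only at h3
  have h5 := hsa' i hi.le j
  have h6 : 0 ≤ ε / (m * r : ℝ) := by positivity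
  linarith

end Pool.Agent.N134.BXCell
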