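import Pool.Agent.N502.FR.Stm

/-!
# Project FR (helper502), leaf KEY: the key bound (helper134)
-/

set_option autoImplicit false

open Finset MeasureTheory

namespace Pool.Agent.N134.FR_KEY

open Pool.Agent.N502.FR

theorem rho_nonneg (A : Finset ℕ) (t : ℝ) : 0 ≤ rho A t :=
  Finset.prod_nonneg fun a _ => by positivity

theorem fac_le (t : ℝ) (a : ℕ) : 1 / √(1 + (t / a) ^ 2) ≤ 1 := by
  rw [div_le_one (by positivity)]
  rw [Real.one_le_sqrt]
  nlinarith [sq_nonneg (t / a)]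

theorem rho_le (A : Finset ℕ) (t : ℝ) (h : 1 ∈ A) : rho A t ≤ 1 / √(1 + t ^ 2) := by
  unfold rho
  rw [← Finset.mul_prod_erase A _ h]
  have h1 : ∏ a ∈ A.erase 1, 1 / √(1 + (t / a) ^ 2) ≤ 1 :=
    Finset.prod_le_one (fun a _ => by positivity) fun a _ => fac_le t a
  have h2 : 1 / √(1 + (t / ((1 : ℕ) : ℝ)) ^ 2) = 1 / √(1 + t ^ 2) := by
    rw [Nat.cast_one, div_one]
  rw [h2]
  calc 1 / √(1 + t ^ 2) * ∏ a ∈ A.erase 1, 1 / √(1 + (t / a) ^ 2) ≤ 1 / √(1 + t ^ 2) * 1 :=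
        mul_le_mul_of_nonneg_left h1 (by positivity)
    _ = 1 / √(1 + t ^ 2) := mul_one _

theorem rho_mul_le (A B : Finset ℕ) (t : ℝ) (hA : 1 ∈ A) (hB : 1 ∈ B) :
    rho A t * rho B t ≤ 1 / (1 + t ^ 2) := by
  have h1 : rho A t * rho B t ≤ 1 / √(1 + t ^ 2) * (1 / √(1 + t ^ 2)) :=
    mul_le_mul (rho_le A t hA) (rho_le B t hB) (rho_nonneg B t) (by positivity)
  refine h1.trans (le_of_eq ?_)
  rw [div_mul_div_comm, one_mul, Real.mul_self_sqrt (by positivity)]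

theorem main : Pool.Agent.N502.FR.S_KEY := by
  intro hATN hSQS hSML hLRG m F A B R hm hFA hFB h1F hA hB hR hAF hBF hor hmom
  have hbd : ∀ t ∈ Set.Ioi (0 : ℝ), ‖kf A B t‖ ≤ 4 * (1 / 2) ^ m * (1 + t ^ 2)⁻¹ := by
    intro t ht
    have ht0 : 0 < t := ht
    rw [Real.norm_eq_abs, ← div_eq_mul_inv]
    rcases lt_or_ge R t with h | h
    · exact hLRG m F A B R t hm hFA hFB h1F hA hB hR hor h
    · have h1 := hSML hATN hSQS m F A B R t hm hFA hFB hR hAF hBF hmom ht0 h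
      have h2 : |Real.sin (th A t - th B t)| ≤ 4 * (1 / 2) ^ m * t :=
        Real.abs_sin_le_abs.trans h1
      have h3 := rho_mul_le A B t (hFA h1F) (hFB h1F)
      have h4 : 0 ≤ rho A t * rho B t := mul_nonneg (rho_nonneg A t) (rho_nonneg B t)
      unfold kf
      rw [abs_div, abs_mul, abs_of_nonneg h4, abs_of_pos ht0, div_le_iff₀ ht0]
      calc rho A t * rho B t * |Real.sin (th A t - th B t)|
          ≤ 1 / (1 + t ^ 2) * (4 * (1 / 2) ^ m * t) :=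
            mul_le_mul h3 h2 (abs_nonneg _) (by positivity)
        _ = 4 * (1 / 2) ^ m / (1 + t ^ 2) * t := by ring
  have hint : IntegrableOn (fun t : ℝ => 4 * (1 / 2) ^ m * (1 + t ^ 2)⁻¹) (Set.Ioi 0) :=
    (integrable_inv_one_add_sq.const_mul _).integrableOn
  have h1 : |∫ t in Set.Ioi (0 : ℝ), kf A B t| ≤
      ∫ t in Set.Ioi (0 : ℝ), 4 * (1 / 2) ^ m * (1 + t ^ 2)⁻¹ := by
    rw [← Real.norm_eq_abs]
    refine norm_integral_le_of_norm_le hint ?_
    rw [ae_restrict_iff' measurableSet_Ioi]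
    exact ae_of_all _ hbd
  rw [integral_const_mul, integral_Ioi_inv_one_add_sq, Real.arctan_zero, sub_zero] at h1
  have hpi := Real.pi_pos
  unfold KK
  have h2 : (1 / 2 : ℝ) - 1 / Real.pi * (∫ t in Set.Ioi (0 : ℝ), kf A B t) - 1 / 2 =
      -(1 / Real.pi * ∫ t in Set.Ioi (0 : ℝ), kf A B t) := by ring
  rw [h2, abs_neg, abs_mul, abs_of_pos (by positivity)]
  calc 1 / Real.pi * |∫ t in Set.Ioi (0 : ℝ), kf A B t|
      ≤ 1 / Real.pi * (4 * (1 / 2) ^ m * (Real.pi / 2)) :=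
        mul_le_mul_of_nonneg_left h1 (by positivity)
    _ = 2 * (1 / 2) ^ m := by
        field_simp
        ring

end Pool.Agent.N134.FR_KEY
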