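import Pool.Agent.N347.LA.Iter
import Pool.Agent.N438.LA_FINAL

/-!
# LA/CST: from a state to the covering (helper134 for project LA of helper347)
-/

set_option autoImplicit false

namespace Pool.Agent.N134.LACOV_OF_STATE

open Finset Pool.Agent.N347.LA

/-- LA/CST -/
theorem cov_of_state {V W : Type} [Fintype V] [Finite W] (R : V → V → Prop)
    (hR : ∀ u v, R u v → R v u) (k : ℕ) (τ : V → ℕ) (f : W → V)
    (hf : ∀ v, {x | f x = v}.ncard = τ v) (G : SimpleGraph W)
    (hG : ∀ x y, G.Adj x y ↔ x ≠ y ∧ R (f x) (f y))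
    (h : HasState R k (fun v : V => v) τ) : H931R3.LA.Cov G k := by
  classical
  obtain ⟨B, hB, q, hq, hs⟩ := Pool.Agent.N347.LA.Iter.iter R hR k _ V (fun v => v) τ rfl h
  refine Pool.Agent.N438.LAFINAL.final R hR k q f G hG (fun v => ?_) hs
  have h1 : {b | q b = v} = ((univ.filter (fun b => q b = v) : Finset B) : Set B) := by
    ext b
    simp
  have h2 := hq v
  rw [Finset.filter_eq' univ v, if_pos (mem_univ _), sum_singleton] at h2
  rw [hf v, h1, Set.ncard_coe_finset, ← h2]

end Pool.Agent.N134.LACOV_OF_STATE
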