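import Pool.Agent.N347.LA.Defs
import Pool.Agent.N767.LA_INIT

/-!
# LA/HSJ: the initial state from `R`, `τ`, `J` (helper134 for project LA of helper347)
-/

set_option autoImplicit false

namespace Pool.Agent.N134.LAHASSTATE_J

open Finset Pool.Agent.N347.LA

open Classical in
/-- LA/HSJ -/
theorem hasState_J {V : Type} [Fintype V] (R : V → V → Prop) (hR : ∀ u v, R u v → R v u) (k : ℕ)
    (τ : V → ℕ) (hτ : ∀ v, 1 ≤ τ v) (J : V → V → ℕ) (hJs : ∀ u v, J u v = J v u)
    (hJd : ∀ v, J v v = 0) (hJe : ∀ v, Even (∑ u, J v u))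
    (hJT : ∀ u v, k * J u v ≤ mul R τ u v) (hd : ∀ v, wdeg R τ v ≤ 2 * k)
    (hz : ∀ v, 2 * k ≤ ∑ u ∈ univ.filter (fun u =>
      Relation.ReflTransGen (fun x y => 0 < J x y) v u), τ u * (2 * k - wdeg R τ u)) :
    HasState R k (fun v : V => v) τ := by
  have hsum : ∀ v, ∑ u, mul R τ v u = τ v * wdeg R τ v := by
    intro v
    unfold wdeg mul
    rw [Finset.mul_sum]
    refine sum_congr rfl fun u _ => ?_
    by_cases hvu : R v u
    · by_cases e : v = u
      · rw [if_pos hvu, if_pos hvu, if_pos e, if_pos e]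
      · rw [if_pos hvu, if_pos hvu, if_neg e, if_neg e]
    · rw [if_neg hvu, if_neg hvu, mul_zero]
  obtain ⟨m, z, h1, h2, h3, h4, h5⟩ := Pool.Agent.N767.LAINIT.init k (mul R τ) τ J
    (fun u v => by
      unfold mul
      by_cases huv : R u v
      · rw [if_pos huv, if_pos (hR u v huv)]
        by_cases e : u = v
        · subst e
          rfl
        · rw [if_neg e, if_neg (Ne.symm e), mul_comm]
      · rw [if_neg huv, if_neg (fun h => huv (hR v u h))])
    (fun v => by
      unfold mul
      by_cases hv : R v v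
      · rw [if_pos hv, if_pos rfl]
        exact Nat.even_mul_pred_self (τ v)
      · rw [if_neg hv]
        exact Even.zero)
    hJs hJd hJe hJT
    (fun v => by
      rw [hsum v, mul_comm (2 * k)]
      exact Nat.mul_le_mul_left _ (hd v))
    (fun v => (hz v).trans (le_of_eq (sum_congr rfl fun u _ => by
      rw [hsum u, Nat.mul_sub, mul_comm (τ u) (2 * k)])))
  refine ⟨m, z, hτ, h1, h2, h3, ?_, ?_, ?_, h5⟩
  · intro a b hab hr
    rw [h4 a b]
    unfold mul
    rw [if_pos hr, if_neg hab]
  · intro a hr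
    rw [h4 a a]
    unfold mul
    rw [if_pos hr, if_pos rfl]
  · intro c a b hr
    have h := h4 a b
    unfold mul at h
    rw [if_neg hr] at h
    exact (Finset.sum_eq_zero_iff.1 h) c (mem_univ c)

end Pool.Agent.N134.LAHASSTATE_J
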