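import Pool.Agent.N347.LA.TwinDefs

/-!
# LA/TWQ: the twin quotient of a graph (helper134 for project LA of helper347)
-/

set_option autoImplicit false

namespace Pool.Agent.N134.LATWIN_QUOTIENT

open Finset Pool.Agent.N347.LA

variable {W : Type} {G : SimpleGraph W}

theorem twin_symm {u w : W} (h : Twin G u w) : Twin G w u :=
  fun x h1 h2 => (h x h2 h1).symm

theorem twin_trans {u v w : W} (h1 : Twin G u v) (h2 : Twin G v w) : Twin G u w := by
  intro x hxu hxw
  by_cases huv : u = v
  · subst huv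
    exact h2 x hxu hxw
  by_cases hvw : v = w
  · subst hvw
    exact h1 x hxu hxw
  by_cases huw : u = w
  · subst huw
    exact Iff.rfl
  by_cases hxv : x = v
  · subst hxv
    have e1 := h1 w (Ne.symm huw) (Ne.symm hvw)
    have e2 := h2 u huv huw
    rw [G.adj_comm u x, e2, G.adj_comm w u, e1, G.adj_comm x w]
  · exact (h1 x hxu hxv).trans (h2 x hxv hxw)

theorem key {x x' y y' : W} (hx : Twin G x x') (hy : Twin G y y') (hne : x ≠ y) (hne' : x' ≠ y')
    (h : G.Adj x' y') : G.Adj x y := by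
  by_cases e : y' = x
  · subst e
    by_cases e2 : y = x'
    · subst e2
      exact h.symm
    · have h1 : G.Adj y x' := ((twin_symm hy) x' hne' (Ne.symm e2)).1 h.symm
      exact (hx y hne.symm e2).2 h1.symm
  · have h1 : G.Adj x y' := (hx y' e hne'.symm).2 h
    exact ((hy x hne (Ne.symm e)).2 h1.symm).symm

/-- LA/TWQ -/
theorem twin_quotient {W : Type} [Finite W] (G : SimpleGraph W) :
    ∃ (V : Type) (_ : Fintype V) (R : V → V → Prop) (f : W → V), (∀ u v, R u v → R v u) ∧
      Function.Surjective f ∧ (∀ x y, G.Adj x y ↔ x ≠ y ∧ R (f x) (f y)) ∧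
      ∀ x y, f x = f y ↔ Twin G x y := by
  let S : Setoid W := ⟨Twin G, fun x y _ _ => Iff.rfl, twin_symm, twin_trans⟩
  have hS : ∀ x y, (Quotient.mk S x = Quotient.mk S y) ↔ Twin G x y := fun x y => Quotient.eq
  have : Finite (Quotient S) := Quotient.finite _
  refine ⟨Quotient S, Fintype.ofFinite _, fun a b => ∃ x y, Quotient.mk S x = a ∧
    Quotient.mk S y = b ∧ x ≠ y ∧ G.Adj x y, Quotient.mk S, ?_, Quotient.mk_surjective, ?_, hS⟩
  · rintro u v ⟨x, y, hx, hy, hne, h⟩
    exact ⟨y, x, hy, hx, hne.symm, h.symm⟩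
  · intro x y
    constructor
    · intro h
      exact ⟨h.ne, x, y, rfl, rfl, h.ne, h⟩
    · rintro ⟨hne, x', y', hx, hy, hne', h⟩
      exact key ((hS x x').1 hx.symm) ((hS y y').1 hy.symm) hne hne' h

end Pool.Agent.N134.LATWIN_QUOTIENT
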