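import Pool.Agent.N407.LA_COMP_BOUND
import Pool.Agent.N134.LA_COV_OF_STATE
import Pool.Agent.N134.LA_HASSTATE_J
import Pool.Agent.N134.LA_TWIN_QUOTIENT

/-!
# LA/TWC: all adjacent non-twins are heavy (helper134 for project LA of helper347; the lemma
`nbr_card` is by helper937)
-/

set_option autoImplicit false

namespace Pool.Agent.N134.LACOV_HEAVY

open Finset Pool.Agent.N347.LA

open Classical in
theorem nbr_card {V W : Type} [Fintype V] [Fintype W] (G : SimpleGraph W) (R : V → V → Prop)
    (f : W → V) (hG : ∀ x y, G.Adj x y ↔ x ≠ y ∧ R (f x) (f y)) (x : W) :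
    (G.neighborSet x).ncard = wdeg R (fun v => {x | f x = v}.ncard) (f x) := by
  have h1 : G.neighborSet x = ((univ.filter (fun y => x ≠ y ∧ R (f x) (f y)) : Finset W) : Set W) := by
    ext y
    simp [SimpleGraph.mem_neighborSet, hG]
  rw [h1, Set.ncard_coe_finset]
  have h2 : ((univ.filter (fun y => x ≠ y ∧ R (f x) (f y)) : Finset W)).card
      = ∑ u, ((univ.filter (fun y => x ≠ y ∧ R (f x) (f y)) : Finset W).filter
          (fun y => f y = u)).card :=
    Finset.card_eq_sum_card_fiberwise (fun y _ => by simp)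
  rw [h2]
  unfold wdeg
  apply Finset.sum_congr rfl
  intro u _
  rw [Finset.filter_filter]
  split_ifs with hR hu
  · subst hu
    have h3 : (univ.filter (fun y => (x ≠ y ∧ R (f x) (f y)) ∧ f y = f x) : Finset W)
        = (univ.filter (fun y => f y = f x)).erase x := by
      ext y
      simp only [mem_filter, mem_univ, true_and, mem_erase]
      constructor
      · rintro ⟨⟨h, _⟩, h'⟩
        exact ⟨fun e => h e.symm, h'⟩
      · rintro ⟨h, h'⟩
        refine ⟨⟨fun e => h e.symm, ?_⟩, h'⟩
        rw [h']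
        exact hR
    rw [h3, Finset.card_erase_of_mem (by simp)]
    congr 1
    have h4 : ({y | f y = f x} : Set W) = ((univ.filter (fun y => f y = f x) : Finset W) : Set W) := by
      ext y
      simp
    show _ = ({y | f y = f x} : Set W).ncard
    rw [h4, Set.ncard_coe_finset]
  · have h3 : (univ.filter (fun y => (x ≠ y ∧ R (f x) (f y)) ∧ f y = u) : Finset W)
        = univ.filter (fun y => f y = u) := by
      ext y
      simp only [mem_filter, mem_univ, true_and]
      constructor
      · rintro ⟨_, h'⟩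
        exact h'
      · intro h'
        refine ⟨⟨?_, ?_⟩, h'⟩
        · rintro rfl
          exact hu h'
        · rw [h']
          exact hR
    rw [h3]
    have h4 : ({y | f y = u} : Set W) = ((univ.filter (fun y => f y = u) : Finset W) : Set W) := by
      ext y
      simp
    show _ = ({y | f y = u} : Set W).ncard
    rw [h4, Set.ncard_coe_finset]
  · rw [Finset.card_eq_zero, Finset.filter_eq_empty_iff]
    rintro y _ ⟨⟨_, h⟩, rfl⟩
    exact hR h

/-- LA/TWC -/
theorem cov_heavy {W : Type} [Finite W] (G : SimpleGraph W) (k : ℕ)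
    (hd : ∀ v, (G.neighborSet v).ncard + 1 ≤ 2 * k)
    (h : ∀ u v, G.Adj u v → ¬ Twin G u v → 2 * k ≤ tau G u * tau G v) :
    H931R3.LA.Cov G k := by
  classical
  cases nonempty_fintype W
  obtain ⟨V, hV, R, f, hR, hsurj, hG, htw⟩ := Pool.Agent.N134.LATWIN_QUOTIENT.twin_quotient G
  obtain ⟨τ, hτdef⟩ : ∃ τ : V → ℕ, τ = fun v => {x | f x = v}.ncard := ⟨_, rfl⟩
  have hcard : ∀ v, τ v = (univ.filter (fun y => f y = v) : Finset W).card := by
    intro v
    have h4 : ({y | f y = v} : Set W) = ((univ.filter (fun y => f y = v) : Finset W) : Set W) := by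
      ext y
      simp
    rw [hτdef]
    show ({y | f y = v} : Set W).ncard = _
    rw [h4, Set.ncard_coe_finset]
  have hτ : ∀ v, 1 ≤ τ v := by
    intro v
    rw [hcard]
    obtain ⟨x, hx⟩ := hsurj v
    exact Finset.card_pos.2 ⟨x, by simp [hx]⟩
  have htau : ∀ x, tau G x = τ (f x) := by
    intro x
    unfold tau
    rw [hτdef]
    show _ = ({y | f y = f x} : Set W).ncard
    congr 1
    ext w
    simp only [Set.mem_ofPred_eq]
    rw [← htw]
    exact eq_comm
  have hdeg : ∀ x, (G.neighborSet x).ncard = wdeg R τ (f x) := fun x => by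
    rw [hτdef]
    exact nbr_card G R f hG x
  have hd' : ∀ v, wdeg R τ v + 1 ≤ 2 * k := by
    intro v
    obtain ⟨x, rfl⟩ := hsurj v
    rw [← hdeg]
    exact hd x
  obtain ⟨J, hJ⟩ : ∃ J : V → V → ℕ, ∀ u v, J u v = if u ≠ v ∧ R u v then 2 else 0 :=
    ⟨_, fun _ _ => rfl⟩
  have hJpos : ∀ u v, 0 < J u v ↔ u ≠ v ∧ R u v := by
    intro u v
    rw [hJ]
    by_cases e : u ≠ v ∧ R u v
    · rw [if_pos e]
      exact ⟨fun _ => e, fun _ => by norm_num⟩
    · rw [if_neg e]
      exact ⟨fun h => absurd h (lt_irrefl 0), fun h => absurd h e⟩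
  have hreach : ∀ u v, Relation.ReflTransGen (fun x y => 0 < J x y) u v ↔
      Relation.ReflTransGen R u v := by
    intro u v
    constructor
    · intro h
      induction h with
      | refl => exact Relation.ReflTransGen.refl
      | tail _ hbc ih => exact ih.tail ((hJpos _ _).1 hbc).2
    · intro h
      induction h with
      | refl => exact Relation.ReflTransGen.refl
      | @tail b c _ hbc ih =>
        by_cases e : b = c
        · rw [← e]
          exact ih
        · exact ih.tail ((hJpos _ _).2 ⟨e, hbc⟩)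
  refine Pool.Agent.N134.LACOV_OF_STATE.cov_of_state R hR k τ f (fun v => by rw [hτdef]) G hG ?_
  refine Pool.Agent.N134.LAHASSTATE_J.hasState_J R hR k τ hτ J ?_ ?_ ?_ ?_ ?_ ?_
  · intro u v
    rw [hJ, hJ]
    by_cases e : u ≠ v ∧ R u v
    · rw [if_pos e, if_pos ⟨e.1.symm, hR _ _ e.2⟩]
    · rw [if_neg e, if_neg (fun h => e ⟨h.1.symm, hR _ _ h.2⟩)]
  · intro v
    rw [hJ, if_neg (fun h => h.1 rfl)]
  · intro v
    refine even_iff_two_dvd.2 (Finset.dvd_sum fun u _ => ?_)
    rw [hJ]
    split_ifs
    · exact dvd_refl 2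
    · exact dvd_zero 2
  · intro u v
    rw [hJ]
    by_cases e : u ≠ v ∧ R u v
    · rw [if_pos e]
      unfold mul
      rw [if_pos e.2, if_neg e.1]
      obtain ⟨x, rfl⟩ := hsurj u
      obtain ⟨y, rfl⟩ := hsurj v
      have h1 := h x y ((hG x y).2 ⟨fun h' => e.1 (by rw [h']), e.2⟩)
        (fun h' => e.1 ((htw x y).2 h'))
      rw [htau, htau] at h1
      rw [mul_comm k 2]
      exact h1
    · rw [if_neg e, mul_zero]
      exact Nat.zero_le _
  · intro v
    have := hd' v
    omega
  · intro v
    have e : (univ.filter (fun u => Relation.ReflTransGen (fun x y => 0 < J x y) v u)) =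
        univ.filter (fun u => Relation.ReflTransGen R v u) :=
      Finset.filter_congr (fun u _ => hreach v u)
    have h1 := Pool.Agent.N407.LACOMP_BOUND.comp_bound R hR k τ hτ hd' v
    convert h1 using 2

end Pool.Agent.N134.LACOV_HEAVY
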