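import Pool.Agent.N580.NS.Stm

/-!
# NS/NIL: nilpotency of the augmentation ideal of powers of an abelian `p`-group
-/

set_option autoImplicit false

namespace Pool.Agent.N134.NS

open Pool.Agent.N580 Subgroup

/-- generators -/
lemma gens (G : Type) [Group G] [Finite G] (k : ℕ) : ∃ S : Finset G, S.card ≤ k ∧
    (closure (S : Set G) = ⊤ ∨ 2 ^ k ≤ Nat.card (closure (S : Set G))) := by
  classical
  induction k with
  | zero =>
    refine ⟨∅, le_rfl, Or.inr ?_⟩
    rw [pow_zero]
    exact Nat.card_pos
  | succ k ih =>
    obtain ⟨S, h1, h2⟩ := ih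
    by_cases h3 : closure (S : Set G) = ⊤
    · exact ⟨S, h1.trans (Nat.le_succ k), Or.inl h3⟩
    · obtain ⟨g, hg⟩ : ∃ g, g ∉ closure (S : Set G) := by
        by_contra h
        push Not at h
        exact h3 (eq_top_iff.2 fun x _ => h x)
      refine ⟨insert g S, (Finset.card_insert_le _ _).trans (Nat.succ_le_succ h1), Or.inr ?_⟩
      rcases h2 with h2 | h2
      · exact absurd h2 h3
      have hle : closure (S : Set G) ≤ closure ((insert g S : Finset G) : Set G) := by
        apply Subgroup.closure_mono
        rw [Finset.coe_insert]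
        exact Set.subset_insert _ _
      have hg' : g ∈ closure ((insert g S : Finset G) : Set G) := by
        apply Subgroup.subset_closure
        rw [Finset.coe_insert]
        exact Set.mem_insert _ _
      have hdvd := card_dvd_of_le hle
      obtain ⟨m, hm⟩ := hdvd
      have hpos : 0 < Nat.card (closure ((insert g S : Finset G) : Set G)) := Nat.card_pos
      have hpos' : 0 < Nat.card (closure (S : Set G)) := Nat.card_pos
      have hm0 : m ≠ 0 := by
        rintro rfl
        omega
      have hm1 : m ≠ 1 := by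
        rintro rfl
        rw [mul_one] at hm
        have h5 : closure (S : Set G) = closure ((insert g S : Finset G) : Set G) :=
          Subgroup.eq_of_le_of_card_ge hle hm.le
        rw [← h5] at hg'
        exact hg hg'
      rw [hm, pow_succ]
      exact Nat.mul_le_mul h2 (by omega)

/-- powers of an ideal generated by nilpotent elements -/
lemma ideal_pow {R : Type*} [CommRing R] {ι : Type*} (S : Finset ι) (u : ι → R) (N : ℕ)
    (hu : ∀ i ∈ S, u i ^ N = 0) :
    (⨆ i ∈ S, Ideal.span {u i}) ^ (S.card * N + 1) = (⊥ : Ideal R) := by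
  classical
  induction S using Finset.induction_on with
  | empty => simp
  | insert i S hi ih =>
    rw [Finset.iSup_insert, Finset.card_insert_of_notMem hi]
    have e : (S.card + 1) * N + 1 = N + (S.card * N + 1) := by ring
    rw [e]
    apply le_bot_iff.1
    refine Ideal.sup_pow_add_le_pow_sup_pow.trans ?_
    rw [ih fun j hj => hu j (Finset.mem_insert_of_mem hj), Ideal.span_singleton_pow,
      hu i (Finset.mem_insert_self _ _)]
    simp

/-- powers of a commutative group -/
lemma core (p : ℕ) [Fact p.Prime] (K : Type) [Field K] [CharP K p] (P : Type) [CommGroup P]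
    [Finite P] (c t : ℕ) (hc : ∀ a : P, a ^ p ^ c = 1) (ht : Nat.card P ≤ 2 ^ t) (J : Type)
    [Fintype J] (M : ℕ) (hM : Fintype.card J * t * p ^ c < M) :
    aug K (⊤ : Subgroup (J → P)) ^ M = ⊥ := by
  classical
  obtain ⟨S, hS1, hS2⟩ := gens P t
  have hS : closure (S : Set P) = ⊤ := by
    rcases hS2 with h | h
    · exact h
    · exact Subgroup.eq_top_of_le_card _ (ht.trans h)
  have : CharP (MonoidAlgebra K (J → P)) p :=
    charP_of_injective_algebraMap (FaithfulSMul.algebraMap_injective K _) p
  set u : J × P → MonoidAlgebra K (J → P) := fun x => gr K (Pi.mulSingle x.1 x.2 : J → P) - 1 with hu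
  have hu0 : ∀ x, u x ^ p ^ c = 0 := by
    intro x
    show (gr K (Pi.mulSingle x.1 x.2 : J → P) - 1 : MonoidAlgebra K (J → P)) ^ p ^ c = 0
    rw [sub_pow_char_pow, one_pow, ← gr_pow, ← Pi.mulSingle_pow, hc, Pi.mulSingle_one, gr_one,
      sub_self]
  set I : Ideal (MonoidAlgebra K (J → P)) :=
    ⨆ x ∈ (Finset.univ : Finset J) ×ˢ S, Ideal.span {u x} with hI
  have hIp := ideal_pow ((Finset.univ : Finset J) ×ˢ S) u (p ^ c) (fun x _ => hu0 x)
  rw [← hI, Finset.card_product, Finset.card_univ] at hIp
  have hIM : I ^ M = ⊥ := by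
    apply le_bot_iff.1
    rw [← hIp]
    apply Ideal.pow_le_pow_right
    have h1 : Fintype.card J * S.card * p ^ c ≤ Fintype.card J * t * p ^ c := by gcongr
    omega
  -- the subgroup of the `g` with `g - 1 ∈ I`
  let T : Subgroup (J → P) :=
    { carrier := {g | gr K g - 1 ∈ I}
      one_mem' := by
        show gr K 1 - 1 ∈ I
        rw [gr_one, sub_self]
        exact I.zero_mem
      mul_mem' := by
        intro a b ha hb
        show gr K (a * b) - 1 ∈ I
        have e : gr K (a * b) - 1 = gr K b * (gr K a - 1) + (gr K b - 1) := by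
          rw [gr_mul]
          ring
        rw [e]
        exact I.add_mem (I.mul_mem_left _ ha) hb
      inv_mem' := by
        intro a ha
        show gr K a⁻¹ - 1 ∈ I
        have e : gr K a⁻¹ - 1 = -(gr K a⁻¹ * (gr K a - 1)) := by
          rw [mul_sub, gr_inv_mul]
          ring
        rw [e]
        exact I.neg_mem (I.mul_mem_left _ ha) }
  have hT : ∀ g : J → P, g ∈ T := by
    intro g
    apply Subgroup.pi_mem_of_mulSingle_mem
    intro j
    have h1 : closure (S : Set P) ≤ T.comap (MonoidHom.mulSingle (fun _ : J => P) j) := by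
      rw [closure_le]
      intro s hs
      show gr K (Pi.mulSingle j s : J → P) - 1 ∈ I
      have h2 : u (j, s) ∈ I := by
        rw [hI]
        exact Ideal.mem_iSup_of_mem (j, s) (Ideal.mem_iSup_of_mem
          (Finset.mem_product.2 ⟨Finset.mem_univ _, hs⟩) (Ideal.subset_span rfl))
      exact h2
    rw [hS] at h1
    exact h1 (mem_top (g j))
  have hle : aug K (⊤ : Subgroup (J → P)) ≤ I.restrictScalars K := by
    rw [aug, Submodule.span_le]
    rintro _ ⟨g, _, rfl⟩
    exact hT g
  have hpow : ∀ n : ℕ, aug K (⊤ : Subgroup (J → P)) ^ n ≤ (I ^ n).restrictScalars K := by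
    intro n
    induction n with
    | zero =>
      rw [pow_zero, pow_zero, Ideal.one_eq_top]
      intro x _
      trivial
    | succ n ih =>
      rw [pow_succ, pow_succ, Submodule.mul_le]
      intro a ha b hb
      exact Ideal.mul_mem_mul (ih ha) (hle hb)
  apply le_bot_iff.1
  intro x hx
  have := hpow M hx
  rw [hIM] at this
  exact this

/-- NS/NIL -/
theorem nil : NS.NIL := by
  intro p _ K _ _ E _ _ PP hcomm c t hc ht J _ M hM
  let _ : CommGroup PP := { (inferInstance : Group PP) with
    mul_comm := fun a b => Subtype.ext (hcomm a a.2 b b.2) }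
  have h1 := core p K PP c t (fun a => Subtype.ext (by simpa using hc a a.2)) ht J M hM
  let f : (J → PP) →* (J → E) :=
    { toFun := fun x j => (x j : E)
      map_one' := rfl
      map_mul' := fun _ _ => rfl }
  let F : MonoidAlgebra K (J → PP) →ₐ[K] MonoidAlgebra K (J → E) :=
    MonoidAlgebra.mapDomainAlgHom K K f
  have h2 : aug K (Subgroup.pi Set.univ fun _ : J => PP) ≤
      (aug K (⊤ : Subgroup (J → PP))).map F.toLinearMap := by
    rw [aug, Submodule.span_le]
    rintro _ ⟨g, hg, rfl⟩
    refine ⟨gr K (fun j => (⟨g j, hg j (Set.mem_univ j)⟩ : PP)) - 1,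
      Submodule.subset_span ⟨_, mem_top _, rfl⟩, ?_⟩
    show F (gr K (fun j => (⟨g j, hg j (Set.mem_univ j)⟩ : PP)) - 1) = _
    rw [map_sub, map_one]
    congr 1
    show MonoidAlgebra.mapDomain f (MonoidAlgebra.single _ 1) = MonoidAlgebra.single g 1
    rw [MonoidAlgebra.mapDomain_single]
    rfl
  have h3 : aug K (Subgroup.pi Set.univ fun _ : J => PP) ^ M ≤
      ((aug K (⊤ : Subgroup (J → PP))) ^ M).map F.toLinearMap := by
    rw [Submodule.map_pow]
    exact pow_le_pow_left' h2 M
  apply le_bot_iff.1
  refine h3.trans ?_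
  rw [h1, Submodule.map_bot]

end Pool.Agent.N134.NS
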