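import Pool.Agent.N979.P1.Stm

/-! P1/PTWP (helper134 for helper979). -/

set_option autoImplicit false

open MeasureTheory Metric Set Filter Topology InnerProductGeometry Matrix

namespace Pool.Agent.N134.P1_PTWP

open Pool.Agent.H241R3.FV Pool.Agent.N526.CP Pool.Agent.N979.P1

instance instFin (n : ℕ) : IsFiniteMeasure (sg n) := by
  unfold sg
  rcases eq_or_ne (sig n univ) 0 with h | h
  · have h0 : sig n = 0 := by
      rw [← Measure.measure_univ_eq_zero]
      exact h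
    rw [h0, smul_zero]
    infer_instance
  · constructor
    rw [Measure.smul_apply, smul_eq_mul]
    exact ENNReal.mul_lt_top (ENNReal.inv_lt_top.2 (pos_iff_ne_zero.2 h)) (measure_lt_top _ _)

/-- the frame map as a linear map -/
noncomputable def AxL (θ : Sph 2) : E 2 →L[ℝ] E 2 :=
  (innerSL ℝ (θ : E 2)).smulRight (!₂[1, 0] : E 2) + (innerSL ℝ (Jr (θ : E 2))).smulRight (!₂[0, 1] : E 2)

theorem pair_eq (a b : ℝ) : (!₂[a, b] : E 2) = a • (!₂[1, 0] : E 2) + b • (!₂[0, 1] : E 2) := by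
  ext i
  fin_cases i <;> simp

theorem AxL_apply (θ : Sph 2) (z : E 2) : AxL θ z = Ax θ z := by
  unfold AxL Ax
  rw [pair_eq (inner ℝ z (θ : E 2))]
  simp only [_root_.add_apply, ContinuousLinearMap.smulRight_apply, innerSL_apply_apply]
  rw [real_inner_comm, real_inner_comm (Jr (θ : E 2))]

theorem Ax_fun (θ : Sph 2) : Ax θ = AxL θ := by
  funext z
  exact (AxL_apply θ z).symm

theorem Ax_smul (θ : Sph 2) (c : ℝ) (z : E 2) : Ax θ (c • z) = c • Ax θ z := by
  rw [Ax_fun, map_smul]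

theorem dt_smul (c : ℝ) (u v : E 2) : dt (c • u) v = c * dt u v := by
  unfold dt
  simp only [PiLp.smul_apply, smul_eq_mul]
  ring

theorem det_pair (A' B' : E 2 →L[ℝ] ℝ) (u w : E 2) (hA : ∀ v, A' v = inner ℝ u v) (hB : ∀ v, B' v = inner ℝ w v) :
    (A'.smulRight (!₂[1, 0] : E 2) + B'.smulRight (!₂[0, 1] : E 2)).det = dt u w := by
  rw [det_mat, Matrix.det_fin_two]
  unfold mat dt
  simp only [_root_.add_apply, ContinuousLinearMap.smulRight_apply, hA, hB, PiLp.add_apply,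
    PiLp.smul_apply, smul_eq_mul]
  simp [EuclideanSpace.inner_single_right]

theorem alpha_bound {α : Sph 2 → E 2} {G : Matrix (Fin 2) (Fin 2) ℝ}
    (h : ∀ᵐ θ ∂(sg 2), ∀ v, |inner ℝ (α θ) v| ≤ gnorm G v) : ∃ K : ℝ, ∀ᵐ θ ∂(sg 2), ‖α θ‖ ≤ K := by
  refine ⟨√(∑ i, ∑ j, |G i j|), ?_⟩
  filter_upwards [h] with θ hθ
  have h1 := (hθ (α θ)).trans (gnorm_le G (α θ))
  rw [real_inner_self_eq_norm_sq, abs_of_nonneg (by positivity)] at h1
  rcases eq_or_lt_of_le (norm_nonneg (α θ)) with h0 | h0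
  · rw [← h0]
    positivity
  · nlinarith

theorem apply_integral {α : Sph 2 → E 2} (hm : Measurable α) {K : ℝ} (hK : ∀ᵐ θ ∂(sg 2), ‖α θ‖ ≤ K)
    (f : E 2 →L[ℝ] ℝ) (v : E 2) :
    f (∫ θ : Sph 2, inner ℝ (α θ) v • (θ : E 2) ∂(sg 2)) =
      inner ℝ (∫ θ : Sph 2, (f (θ : E 2)) • α θ ∂(sg 2)) v := by
  have hcoe : Continuous (fun θ : Sph 2 => (θ : E 2)) := continuous_subtype_val
  have hfc : Continuous (fun θ : Sph 2 => f (θ : E 2)) := f.continuous.comp hcoe
  have hmi : Measurable (fun θ : Sph 2 => inner ℝ (α θ) v) := hm.inner_const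
  have hms : Measurable (fun θ : Sph 2 => inner ℝ (α θ) v • (θ : E 2)) := hmi.smul hcoe.measurable
  have hms2 : Measurable (fun θ : Sph 2 => (f (θ : E 2)) • α θ) := hfc.measurable.smul hm
  have i1 : Integrable (fun θ : Sph 2 => inner ℝ (α θ) v • (θ : E 2)) (sg 2) := by
    refine Integrable.of_bound hms.aestronglyMeasurable (K * ‖v‖) ?_
    filter_upwards [hK] with θ hθ
    rw [norm_smul, norm_sph, mul_one]
    exact (norm_inner_le_norm _ _).trans (mul_le_mul_of_nonneg_right hθ (norm_nonneg v))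
  have i2 : Integrable (fun θ : Sph 2 => (f (θ : E 2)) • α θ) (sg 2) := by
    refine Integrable.of_bound hms2.aestronglyMeasurable (‖f‖ * K) ?_
    filter_upwards [hK] with θ hθ
    rw [norm_smul]
    have h1 : ‖f (θ : E 2)‖ ≤ ‖f‖ := by
      have := f.le_opNorm (θ : E 2)
      rwa [norm_sph, mul_one] at this
    exact mul_le_mul h1 hθ (norm_nonneg _) (norm_nonneg _)
  rw [← f.integral_comp_comm i1, real_inner_comm, ← integral_inner i2]
  refine integral_congr_ae (Eventually.of_forall fun θ => ?_)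
  show f (inner ℝ (α θ) v • (θ : E 2)) = inner ℝ v (f (θ : E 2) • α θ)
  rw [map_smul, smul_eq_mul, inner_smul_right, real_inner_comm]
  ring

theorem main (h1 : S_ZDIF) (h2 : S_LINA) (h3 : S_ZF1) (h4 : S_RAD) : S_PTWP := by
  intro k T hk M _ _ S s g hs0 hs1 hF c hc0 hc1 i hnull
  have hnull' : ∀ᵐ p ∂(volume : Measure (E 2)), ∀ ρ ∈ T,
      ¬ (p ∈ (S.chart i).U ∧ c * ‖Zg g ((S.chart i).map p)‖ = ρ) := by
    rw [Finset.eventually_all]
    intro ρ hρ
    rw [ae_iff]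
    simpa using hnull ρ hρ
  filter_upwards [h1 M S s g hs0 hs1 hF i, hnull'] with p hp hpn hpU
  obtain ⟨α, hαm, hα1, hα2, L, hL, hZ⟩ := hp hpU
  obtain ⟨K, hK⟩ := alpha_bound hα2
  obtain ⟨Z, hZd⟩ : ∃ Z : E 2, Z = Zg g ((S.chart i).map p) := ⟨_, rfl⟩
  rw [← hZd] at hpn
  have hcZ : ‖c • Z‖ = c * ‖Z‖ := by rw [norm_smul, Real.norm_eq_abs, abs_of_pos hc0]
  have hT : ‖c • Z‖ ∉ T := fun hmem => hpn _ hmem ⟨hpU, hcZ.symm⟩
  have hdiff := hk.diff (c • Z) hT
  have hZle : ‖Z‖ ≤ zf 1 s := by rw [hZd]; exact hF.range ((S.chart i).map p)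
  have hzf : zf 1 s < 2 / Real.pi := by
    rw [← h3]
    exact (h4 1 le_rfl).2.1 ⟨hs0.le, hs1.le⟩ ⟨zero_le_one, le_rfl⟩ hs1
  have hZlt : ‖c • Z‖ < 2 / Real.pi := by
    rw [hcZ]
    nlinarith [norm_nonneg Z]
  obtain ⟨kc, hkc⟩ : ∃ kc : E 2 → ℝ, kc = fun z => k (c • z) := ⟨_, rfl⟩
  -- derivative of `w ↦ kc (Ax θ w)`
  have hder : ∀ᵐ θ ∂(sg 2), HasFDerivAt (fun w => kc (Ax θ w))
      (c • fderiv ℝ (fun w => k (Ax θ w)) (c • Z)) Z := by
    filter_upwards [hdiff] with θ hθ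
    have hA : DifferentiableAt ℝ (Ax θ) (c • Z) := by
      rw [Ax_fun]
      exact (AxL θ).differentiableAt
    have hc : DifferentiableAt ℝ (fun w => k (Ax θ w)) (c • Z) := hθ.comp (c • Z) hA
    have hs : HasFDerivAt (fun w : E 2 => c • w) (c • ContinuousLinearMap.id ℝ (E 2)) Z :=
      (hasFDerivAt_id Z).const_smul c
    have h5 := hc.hasFDerivAt.comp Z hs
    have e1 : (fun w => kc (Ax θ w)) = (fun w => k (Ax θ w)) ∘ fun w : E 2 => c • w := by
      funext w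
      rw [hkc]
      simp only [Function.comp_apply]
      rw [Ax_smul]
    have e7 : c • fderiv ℝ (fun w => k (Ax θ w)) (c • Z) =
        (fderiv ℝ (fun w => k (Ax θ w)) (c • Z)).comp (c • ContinuousLinearMap.id ℝ (E 2)) := by
      ext v
      simp
    rw [e1, e7]
    exact h5
  have hint : ∫ θ, (fderiv ℝ (Ph (fun z => k (c • z)) g θ ∘ (S.chart i).map) p).det ∂(sg 2) = Jk kc Z α := by
    unfold Jk
    apply integral_congr_ae
    filter_upwards [hα1, hder] with θ hθ hd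
    rw [hZd] at hd
    have e1 : HasFDerivAt ((fun w => kc (Ax θ w)) ∘ (Zg g ∘ (S.chart i).map)) _ p := HasFDerivAt.comp p hd hZ
    have e2 := (e1.smul_const (!₂[1, 0] : E 2)).add (hθ.smul_const (!₂[0, 1] : E 2))
    have e3 : (Ph (fun z => k (c • z)) g θ ∘ (S.chart i).map) = fun y =>
        ((fun w => kc (Ax θ w)) ∘ (Zg g ∘ (S.chart i).map)) y • (!₂[1, 0] : E 2) +
          (g θ ∘ (S.chart i).map) y • (!₂[0, 1] : E 2) := by
      funext y
      unfold Ph
      simp only [Function.comp_apply, hkc]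
      exact pair_eq _ _
    rw [e3]
    have e4 := e2.fderiv
    rw [show (fun y => ((fun w => kc (Ax θ w)) ∘ (Zg g ∘ (S.chart i).map)) y • (!₂[1, 0] : E 2) +
          (g θ ∘ (S.chart i).map) y • (!₂[0, 1] : E 2)) = ((fun y => ((fun w => kc (Ax θ w)) ∘
          (Zg g ∘ (S.chart i).map)) y • (!₂[1, 0] : E 2)) + fun y =>
          (g θ ∘ (S.chart i).map) y • (!₂[0, 1] : E 2)) from rfl, e4]
    refine det_pair _ _ _ _ (fun v => ?_) (fun v => by simp)
    rw [← hZd] at hd ⊢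
    rw [hd.fderiv, ContinuousLinearMap.comp_apply, hL v]
    exact apply_integral hαm hK _ v
  rw [hint]
  have hlip : ∃ K : NNReal, LipschitzWith K kc := by
    obtain ⟨K₀, hK₀⟩ := hk.lip
    refine ⟨K₀ * ‖c‖₊, ?_⟩
    rw [hkc]
    exact hK₀.comp (lipschitzWith_smul c)
  obtain ⟨a, ham, ha1, ha2⟩ := h2 kc Z α ((S.chart i).G p) hlip hαm ((S.chart i).pos_G p hpU) hα2
  rw [ha2]
  have hJ : Jk kc Z a = c * Jk k (c • Z) a := by
    unfold Jk
    rw [← integral_const_mul]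
    apply integral_congr_ae
    filter_upwards [hder] with θ hd
    rw [hd.fderiv, ← dt_smul, ← integral_smul]
    congr 1
    refine integral_congr_ae (Eventually.of_forall fun θ' => ?_)
    simp only [_root_.smul_apply, smul_smul, smul_eq_mul]
  have hJ1 : |Jk kc Z a| ≤ 1 := by
    rw [hJ, abs_mul, abs_of_pos hc0]
    have h6 := hk.com (c • Z) hT hZlt a ham ha1
    have h7 := abs_nonneg (Jk k (c • Z) a)
    nlinarith
  calc √((S.chart i).G p).det * |Jk kc Z a| ≤ √((S.chart i).G p).det * 1 :=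
        mul_le_mul_of_nonneg_left hJ1 (Real.sqrt_nonneg _)
    _ = _ := mul_one _

end Pool.Agent.N134.P1_PTWP
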