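import Pool.Agent.N979.P1.Dat

/-!
# Orientable fillings of the circle: the numerical value (PROJECT P1, leaf VALN)
-/

set_option autoImplicit false

namespace Pool.Agent.N134.P1VALN

open Pool.Agent.N979.P1 Pool.Agent.N979.P1.A

/-- lower bounds of the numbers `√(1 + t_i²)` -/
def lo : Fin 17 → ℚ := ![100000011519999/100000000000000, 100000544498517/100000000000000,
  50002499937503/50000000000000, 97682076663/97656250000, 100096753194097/100000000000000,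
  100266095964687/100000000000000, 4024127234569/4000000000000, 101271911209377/100000000000000,
  51305457799341/50000000000000, 104694794521981/100000000000000, 108461974903649/100000000000000,
  114127122105133/100000000000000, 30952584706289/25000000000000, 140014284985497/100000000000000,
  43011626335213/25000000000000, 11629703349613/5000000000000, 215870331449229/50000000000000]

/-- upper bounds of the numbers `√(1 + t_i²)` -/
def hi : Fin 17 → ℚ := ![78125009/78125000, 50000272249259/50000000000000,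
  100004999875007/100000000000000, 100026446502913/100000000000000, 50048376597049/50000000000000,
  6266630997793/6250000000000, 50301590432113/50000000000000, 50635955604689/50000000000000,
  102610915598683/100000000000000, 52347397260991/50000000000000, 2169239498073/2000000000000,
  57063561052567/50000000000000, 123810338825157/100000000000000, 70007142492749/50000000000000,
  172046505340853/100000000000000, 232594066992261/100000000000000, 431740662898459/100000000000000]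

/-- the sums of the columns -/
def aC {N L : ℕ} (D : DatQ N L) (i : Fin L) : ℚ := ∑ j, D.m j i

/-- the weighted sums of the columns -/
def bC {N L : ℕ} (D : DatQ N L) (i : Fin L) : ℚ := ∑ j, D.ρ j * D.m j i

/-- the lower bound of the coefficient of `2 / π` -/
def Pl {N L : ℕ} (D : DatQ N L) (l h : Fin L → ℚ) : ℚ :=
  D.ka + ∑ j, D.m0 j + ∑ i, (aC D i * (1 + D.t i) - max (aC D i * l i) (aC D i * h i))

/-- the upper bound of the constant coefficient -/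
def Qh {N L : ℕ} (D : DatQ N L) (l h : Fin L → ℚ) : ℚ :=
  ∑ j, D.ρ j * D.m0 j + ∑ i, (bC D i * (1 + D.t i) - min (bC D i * l i) (bC D i * h i))

lemma mul_le_max (a s l h : ℝ) (h1 : l ≤ s) (h2 : s ≤ h) : a * s ≤ max (a * l) (a * h) := by
  rcases le_total 0 a with ha | ha
  · exact le_max_of_le_right (mul_le_mul_of_nonneg_left h2 ha)
  · exact le_max_of_le_left (mul_le_mul_of_nonpos_left h1 ha)

lemma min_le_mul (a s l h : ℝ) (h1 : l ≤ s) (h2 : s ≤ h) : min (a * l) (a * h) ≤ a * s := by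
  rcases le_total 0 a with ha | ha
  · exact min_le_of_left_le (mul_le_mul_of_nonneg_left h1 ha)
  · exact min_le_of_right_le (mul_le_mul_of_nonpos_left h2 ha)

lemma g_eq (t : ℝ) : 1 - (√(1 + t ^ 2))⁻¹ + (t - t ^ 2 * (√(1 + t ^ 2))⁻¹) =
    1 + t - √(1 + t ^ 2) := by
  have hp : (0 : ℝ) < 1 + t ^ 2 := by positivity
  have hs : √(1 + t ^ 2) * √(1 + t ^ 2) = 1 + t ^ 2 := Real.mul_self_sqrt hp.le
  have hs0 : √(1 + t ^ 2) ≠ 0 := (Real.sqrt_pos.2 hp).ne'
  field_simp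
  nlinarith [hs]

lemma val_eq {N L : ℕ} (D : DatQ N L) : ValE D.toDat =
    4 * (2 / Real.pi * ((D.ka : ℝ) + ∑ j, (D.m0 j : ℝ) + ∑ i, ((aC D i : ℚ) : ℝ) *
      (1 + (D.t i : ℝ) - √(1 + (D.t i : ℝ) ^ 2))) -
      (∑ j, (D.ρ j : ℝ) * (D.m0 j : ℝ) + ∑ i, ((bC D i : ℚ) : ℝ) *
      (1 + (D.t i : ℝ) - √(1 + (D.t i : ℝ) ^ 2)))) := by
  unfold ValE
  simp only [g_eq]
  simp only [DatQ.toDat, aC, bC]
  push_cast
  simp only [Finset.sum_mul]
  rw [Finset.sum_comm (γ := Fin L), Finset.sum_comm (γ := Fin L) (f := fun x y => (D.ρ y : ℝ) * (D.m y x : ℝ) *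
    (1 + (D.t x : ℝ) - √(1 + (D.t x : ℝ) ^ 2)))]
  simp only [mul_add, mul_sub, sub_mul, Finset.mul_sum, Finset.sum_add_distrib,
    Finset.sum_sub_distrib]
  ring_nf

lemma Pl_le {N L : ℕ} (D : DatQ N L) (l h : Fin L → ℚ)
    (hs : ∀ i, (l i : ℝ) ≤ √(1 + (D.t i : ℝ) ^ 2) ∧ √(1 + (D.t i : ℝ) ^ 2) ≤ (h i : ℝ)) :
    ((Pl D l h : ℚ) : ℝ) ≤ (D.ka : ℝ) + ∑ j, (D.m0 j : ℝ) + ∑ i, ((aC D i : ℚ) : ℝ) *
      (1 + (D.t i : ℝ) - √(1 + (D.t i : ℝ) ^ 2)) := by
  unfold Pl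
  push_cast
  gcongr with i hi
  have := mul_le_max ((aC D i : ℚ) : ℝ) _ _ _ (hs i).1 (hs i).2
  linarith

lemma le_Qh {N L : ℕ} (D : DatQ N L) (l h : Fin L → ℚ)
    (hs : ∀ i, (l i : ℝ) ≤ √(1 + (D.t i : ℝ) ^ 2) ∧ √(1 + (D.t i : ℝ) ^ 2) ≤ (h i : ℝ)) :
    (∑ j, (D.ρ j : ℝ) * (D.m0 j : ℝ) + ∑ i, ((bC D i : ℚ) : ℝ) *
      (1 + (D.t i : ℝ) - √(1 + (D.t i : ℝ) ^ 2))) ≤ ((Qh D l h : ℚ) : ℝ) := by
  unfold Qh
  push_cast
  gcongr with i hi
  have := min_le_mul ((bC D i : ℚ) : ℝ) _ _ _ (hs i).1 (hs i).2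
  linarith

lemma sq_bd : ∀ i : Fin 17, 0 ≤ lo i ∧ 0 ≤ hi i ∧ lo i ^ 2 ≤ 1 + datQ.t i ^ 2 ∧
    1 + datQ.t i ^ 2 ≤ hi i ^ 2 := by
  decide +kernel

lemma sq_bd' (i : Fin 17) : (lo i : ℝ) ≤ √(1 + (datQ.t i : ℝ) ^ 2) ∧
    √(1 + (datQ.t i : ℝ) ^ 2) ≤ (hi i : ℝ) := by
  obtain ⟨h1, h2, h3, h4⟩ := sq_bd i
  have h1' : (0 : ℝ) ≤ (lo i : ℝ) := by exact_mod_cast h1
  have h2' : (0 : ℝ) ≤ (hi i : ℝ) := by exact_mod_cast h2
  have h3' : (lo i : ℝ) ^ 2 ≤ 1 + (datQ.t i : ℝ) ^ 2 := by exact_mod_cast h3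
  have h4' : 1 + (datQ.t i : ℝ) ^ 2 ≤ (hi i : ℝ) ^ 2 := by exact_mod_cast h4
  exact ⟨Real.le_sqrt_of_sq_le h3', Real.sqrt_le_iff.2 ⟨h2', h4'⟩⟩

lemma fin_chk : 0 ≤ Pl datQ lo hi ∧ 195 / 100 * (3141593 / 1000000) ≤
    4 * (2 / (3141593 / 1000000) * Pl datQ lo hi - Qh datQ lo hi) := by
  decide +kernel

lemma rho_chk : ∀ j, datQ.ρ j ≤ 6343 / 10000 := by
  decide +kernel

/-- VALN -/
theorem main : S_VALN := by
  have hpi : Real.pi < 3141593 / 1000000 := by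
    have := Real.pi_lt_d6
    norm_num at this ⊢
    exact this
  have hp : 0 < Real.pi := Real.pi_pos
  refine ⟨?_, ?_⟩
  · intro j
    have h1 : (datQ.toDat.ρ j : ℝ) ≤ 6343 / 10000 := by
      have := rho_chk j
      show ((datQ.ρ j : ℚ) : ℝ) ≤ 6343 / 10000
      have h2 : ((datQ.ρ j : ℚ) : ℝ) ≤ ((6343 / 10000 : ℚ) : ℝ) := by exact_mod_cast this
      push_cast at h2
      exact h2
    refine h1.trans ?_
    rw [le_div_iff₀ hp]
    linarith
  · rw [val_eq]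
    have hP := Pl_le datQ lo hi sq_bd'
    have hQ := le_Qh datQ lo hi sq_bd'
    obtain ⟨h0, h1⟩ := fin_chk
    have h0' : (0 : ℝ) ≤ ((Pl datQ lo hi : ℚ) : ℝ) := by exact_mod_cast h0
    have h1' : 195 / 100 * (3141593 / 1000000 : ℝ) ≤
        4 * (2 / (3141593 / 1000000) * ((Pl datQ lo hi : ℚ) : ℝ) - ((Qh datQ lo hi : ℚ) : ℝ)) := by
      have h2 := (Rat.cast_le (K := ℝ)).2 h1
      push_cast at h2
      exact h2
    have hZ : 2 / (3141593 / 1000000 : ℝ) ≤ 2 / Real.pi :=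
      div_le_div_of_nonneg_left (by norm_num) hp hpi.le
    have hZ0 : 0 ≤ 2 / Real.pi := by positivity
    have h3 : 2 / (3141593 / 1000000 : ℝ) * ((Pl datQ lo hi : ℚ) : ℝ) ≤
        2 / Real.pi * ((datQ.ka : ℝ) + ∑ j, (datQ.m0 j : ℝ) + ∑ i, ((aC datQ i : ℚ) : ℝ) *
          (1 + (datQ.t i : ℝ) - √(1 + (datQ.t i : ℝ) ^ 2))) :=
      (mul_le_mul_of_nonneg_right hZ h0').trans (mul_le_mul_of_nonneg_left hP hZ0)
    linarith

end Pool.Agent.N134.P1VALN

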