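import Pool.Agent.N804.PV.StmG

/-!
# PV/G01: the variance integral over `1 ≤ x ≤ T`
-/

set_option autoImplicit false

namespace Pool.Agent.N134.PVG

open Filter Topology MeasureTheory Set
open Pool.Agent.N804.PV

/-- the integrand -/
noncomputable def fT (T x : ℝ) : ℝ :=
  (Chebyshev.psi (x + x / T) - Chebyshev.psi x - x / T) ^ 2 / x ^ 2

lemma psi_nat {n : ℕ} {x : ℝ} (h1 : (n : ℝ) ≤ x) (h2 : x < n + 1) :
    Chebyshev.psi x = Chebyshev.psi n := by
  have h3 : ⌊x⌋₊ = n := (Nat.floor_eq_iff ((Nat.cast_nonneg n).trans h1)).2 ⟨h1, h2⟩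
  rw [Chebyshev.psi_eq_psi_coe_floor, h3]

lemma psi_succ (n : ℕ) : Chebyshev.psi ((n : ℝ) + 1) =
    Chebyshev.psi n + ArithmeticFunction.vonMangoldt (n + 1) := by
  unfold Chebyshev.psi
  have h : ⌊(n : ℝ) + 1⌋₊ = n + 1 := by
    exact_mod_cast Nat.floor_natCast (n + 1)
  rw [h, Nat.floor_natCast, Finset.sum_Ioc_succ_top (Nat.zero_le n)]

lemma D_low {T x : ℝ} {n : ℕ} (hT : 0 < T) (h1 : (n : ℝ) ≤ x) (h2 : x + x / T < n + 1) :
    Chebyshev.psi (x + x / T) - Chebyshev.psi x = 0 := by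
  have hx : 0 ≤ x := (Nat.cast_nonneg n).trans h1
  have h3 : 0 ≤ x / T := div_nonneg hx hT.le
  rw [psi_nat (n := n) (by linarith) h2, psi_nat (n := n) h1 (by linarith), sub_self]

lemma D_high {T x : ℝ} {n : ℕ} (hT : 0 < T) (h1 : (n : ℝ) ≤ x) (h2 : x < n + 1)
    (h3 : (n : ℝ) + 1 ≤ x + x / T) (h4 : x ≤ T) :
    Chebyshev.psi (x + x / T) - Chebyshev.psi x = ArithmeticFunction.vonMangoldt (n + 1) := by
  have h5 : x / T ≤ 1 := (div_le_one hT).2 h4
  have h6 : Chebyshev.psi (x + x / T) = Chebyshev.psi ((n + 1 : ℕ) : ℝ) := by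
    apply psi_nat
    · push_cast
      exact h3
    · push_cast
      linarith
  rw [h6, psi_nat (n := n) h1 h2]
  push_cast
  rw [psi_succ]
  ring

lemma meas_f (T : ℝ) : Measurable (fT T) := by
  have h : Measurable Chebyshev.psi := Chebyshev.psi_mono.measurable
  have h1 : Measurable fun x : ℝ => Chebyshev.psi (x + x / T) := h.comp (by fun_prop)
  unfold fT
  exact (((h1.sub h).sub (by fun_prop)).pow_const 2).div (by fun_prop)

lemma f_bound {T x : ℝ} (h1 : 1 ≤ x) (h2 : x ≤ T) :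
    0 ≤ fT T x ∧ fT T x ≤ (Real.log (T + 1) + 1) ^ 2 / x ^ 2 := by
  have hT : 0 < T := by linarith
  have hx : 0 < x := by linarith
  have hl : 0 ≤ Real.log (T + 1) := Real.log_nonneg (by linarith)
  have h3 : 0 ≤ x / T := by positivity
  have h4 : x / T ≤ 1 := (div_le_one hT).2 h2
  have hD : 0 ≤ Chebyshev.psi (x + x / T) - Chebyshev.psi x ∧
      Chebyshev.psi (x + x / T) - Chebyshev.psi x ≤ Real.log (T + 1) := by
    have k1 : ((⌊x⌋₊ : ℕ) : ℝ) ≤ x := Nat.floor_le hx.le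
    have k2 : x < ((⌊x⌋₊ : ℕ) : ℝ) + 1 := Nat.lt_floor_add_one x
    rcases lt_or_ge (x + x / T) (((⌊x⌋₊ : ℕ) : ℝ) + 1) with h | h
    · rw [D_low hT k1 h]
      exact ⟨le_rfl, hl⟩
    · rw [D_high hT k1 k2 h h2]
      refine ⟨ArithmeticFunction.vonMangoldt_nonneg, ?_⟩
      refine ArithmeticFunction.vonMangoldt_le_log.trans (Real.log_le_log ?_ ?_)
      · positivity
      · push_cast
        linarith
  refine ⟨by unfold fT; positivity, ?_⟩
  unfold fT
  gcongr ?_ / _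
  apply sq_le_sq'
  · linarith [hD.1]
  · linarith [hD.2]

lemma f_int {T a b : ℝ} (h1 : 1 ≤ a) (h2 : a ≤ b) (h3 : b ≤ T) :
    IntervalIntegrable (fT T) volume a b := by
  rw [intervalIntegrable_iff_integrableOn_Ioc_of_le h2]
  refine Measure.integrableOn_of_bounded (M := (Real.log (T + 1) + 1) ^ 2) ?_ ?_ ?_
  · rw [Real.volume_Ioc]
    exact ENNReal.ofReal_ne_top
  · exact (meas_f T).aestronglyMeasurable
  · refine (ae_restrict_mem measurableSet_Ioc).mono fun x hx => ?_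
    have k1 : 1 ≤ x := by linarith [hx.1]
    have k2 := f_bound k1 (hx.2.trans h3)
    rw [Real.norm_eq_abs, abs_of_nonneg k2.1]
    refine k2.2.trans (div_le_self (sq_nonneg _) ?_)
    nlinarith

/-- the elementary integral -/
lemma elem {T l a b : ℝ} (hT : 0 < T) (ha : 0 < a) (hab : a ≤ b) :
    ∫ x in a..b, (l - x / T) ^ 2 / x ^ 2 =
      l ^ 2 * (1 / a - 1 / b) - 2 * l / T * (Real.log b - Real.log a) + (b - a) / T ^ 2 := by
  have hder : ∀ x ∈ uIcc a b, HasDerivAt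
      (fun x : ℝ => -(l ^ 2 * x⁻¹) - 2 * l / T * Real.log x + x / T ^ 2)
      ((l - x / T) ^ 2 / x ^ 2) x := by
    intro x hx
    rw [uIcc_of_le hab] at hx
    have hx0 : x ≠ 0 := by
      have := hx.1
      linarith
    have h := (((hasDerivAt_inv hx0).const_mul (l ^ 2)).neg.sub
      ((Real.hasDerivAt_log hx0).const_mul (2 * l / T))).add
      ((hasDerivAt_id x).div_const (T ^ 2))
    refine HasDerivAt.congr_deriv h ?_
    have hT1 : T ≠ 0 := hT.ne'
    field_simp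
    ring
  have hcont : ContinuousOn (fun x : ℝ => (l - x / T) ^ 2 / x ^ 2) (uIcc a b) := by
    rw [uIcc_of_le hab]
    refine ContinuousOn.div (by fun_prop) (by fun_prop) fun x hx => ?_
    have : 0 < x := by linarith [hx.1]
    positivity
  rw [intervalIntegral.integral_eq_sub_of_hasDerivAt hder hcont.intervalIntegrable]
  field_simp
  ring

/-- the integral over one cell -/
lemma cell {T : ℝ} {n : ℕ} (hn : 1 ≤ n) (hT : (n : ℝ) + 1 ≤ T) :
    ∫ x in (n : ℝ)..((n : ℝ) + 1), fT T x = 1 / T ^ 2 +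
      ArithmeticFunction.vonMangoldt (n + 1) ^ 2 / (T * (n + 1)) -
      2 / T * Real.log (1 + 1 / T) * ArithmeticFunction.vonMangoldt (n + 1) := by
  have hn1 : (1 : ℝ) ≤ n := by exact_mod_cast hn
  have hT0 : 0 < T := by linarith
  obtain ⟨a, ha⟩ : ∃ a : ℝ, a = (n + 1) * T / (T + 1) := ⟨_, rfl⟩
  have ha1 : (n : ℝ) ≤ a := by
    rw [ha, le_div_iff₀ (by linarith)]
    nlinarith
  have ha2 : a ≤ n + 1 := by
    rw [ha, div_le_iff₀ (by linarith)]
    nlinarith
  have ha0 : 0 < a := by linarith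
  have hsplit : ∫ x in (n : ℝ)..((n : ℝ) + 1), fT T x =
      (∫ x in (n : ℝ)..a, fT T x) + ∫ x in a..((n : ℝ) + 1), fT T x :=
    (intervalIntegral.integral_add_adjacent_intervals (f_int hn1 ha1 (by linarith))
      (f_int (by linarith) ha2 hT)).symm
  have h1 : ∫ x in (n : ℝ)..a, fT T x = (a - n) / T ^ 2 := by
    have e : ∫ x in (n : ℝ)..a, fT T x = ∫ x in (n : ℝ)..a, (1 / T ^ 2 : ℝ) := by
      apply intervalIntegral.integral_congr_Ioo_of_le ha1
      intro x hx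
      have hx0 : 0 < x := by linarith [hx.1]
      have k : x + x / T < n + 1 := by
        have := hx.2
        rw [ha, lt_div_iff₀ (by linarith)] at this
        have e1 : x + x / T = x * (T + 1) / T := by field_simp
        rw [e1, div_lt_iff₀ hT0]
        exact this
      show fT T x = 1 / T ^ 2
      unfold fT
      rw [D_low hT0 hx.1.le k]
      field_simp
      ring
    rw [e, intervalIntegral.integral_const, smul_eq_mul]
    ring
  have h2 : ∫ x in a..((n : ℝ) + 1), fT T x = ∫ x in a..((n : ℝ) + 1),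
      (ArithmeticFunction.vonMangoldt (n + 1) - x / T) ^ 2 / x ^ 2 := by
    apply intervalIntegral.integral_congr_Ioo_of_le ha2
    intro x hx
    have k : (n : ℝ) + 1 ≤ x + x / T := by
      have := hx.1
      rw [ha, div_lt_iff₀ (by linarith)] at this
      have e1 : x + x / T = x * (T + 1) / T := by field_simp
      rw [e1, le_div_iff₀ hT0]
      exact this.le
    show fT T x = _
    unfold fT
    rw [D_high hT0 (ha1.trans hx.1.le) hx.2 k (hx.2.le.trans hT)]
  have hlog : Real.log ((n : ℝ) + 1) - Real.log a = Real.log (1 + 1 / T) := by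
    rw [← Real.log_div (by positivity) ha0.ne']
    congr 1
    rw [ha]
    field_simp
  have hinv : 1 / a - 1 / ((n : ℝ) + 1) = 1 / (T * (n + 1)) := by
    rw [ha]
    field_simp
    ring
  rw [hsplit, h1, h2, elem hT0 ha0 ha2, hlog, hinv]
  ring

/-- the main part of the integral -/
lemma main_part {T : ℝ} {N : ℕ} (hN : 1 ≤ N) (hT : (N : ℝ) ≤ T) :
    ∫ x in (1 : ℝ)..(N : ℝ), fT T x = ∑ n ∈ Finset.Ico 1 N, (1 / T ^ 2 +
      ArithmeticFunction.vonMangoldt (n + 1) ^ 2 / (T * (n + 1)) -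
      2 / T * Real.log (1 + 1 / T) * ArithmeticFunction.vonMangoldt (n + 1)) := by
  have h := intervalIntegral.sum_integral_adjacent_intervals_Ico (f := fT T) (μ := volume)
    (a := fun k : ℕ => (k : ℝ)) hN (fun k hk => by
      have k1 : (1 : ℝ) ≤ k := by exact_mod_cast hk.1
      have k2 : ((k + 1 : ℕ) : ℝ) ≤ N := by exact_mod_cast hk.2
      exact f_int k1 (by push_cast; linarith) (k2.trans hT))
  simp only [Nat.cast_one] at h
  rw [← h]
  refine Finset.sum_congr rfl fun n hn => ?_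
  rw [Finset.mem_Ico] at hn
  have k2 : ((n + 1 : ℕ) : ℝ) ≤ N := by exact_mod_cast hn.2
  push_cast at k2 ⊢
  exact cell hn.1 (k2.trans hT)

lemma main_bound {T : ℝ} (hT : 1 ≤ T) :
    |T * (∫ x in (1 : ℝ)..(⌊T⌋₊ : ℝ), fT T x) - ∑ n ∈ Finset.Icc 1 ⌊T⌋₊,
      ArithmeticFunction.vonMangoldt n ^ 2 / (n : ℝ)| ≤ 1 + 2 * (Real.log 4 + 4) := by
  have hT0 : 0 < T := by linarith
  obtain ⟨N, hN⟩ : ∃ N : ℕ, N = ⌊T⌋₊ := ⟨_, rfl⟩
  rw [← hN]
  have hN1 : 1 ≤ N := by rw [hN]; exact Nat.le_floor (by exact_mod_cast hT)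
  have hNT : (N : ℝ) ≤ T := by rw [hN]; exact Nat.floor_le hT0.le
  have e1 : ∑ n ∈ Finset.Icc 1 N, ArithmeticFunction.vonMangoldt n ^ 2 / (n : ℝ) =
      ∑ n ∈ Finset.Ico 1 N, ArithmeticFunction.vonMangoldt (n + 1) ^ 2 / ((n : ℝ) + 1) := by
    have k : Finset.Icc 1 N = Finset.Ico 1 (N + 1) := by
      ext n
      simp only [Finset.mem_Icc, Finset.mem_Ico]
      omega
    rw [k, Finset.sum_eq_sum_Ico_succ_bot (by omega), ArithmeticFunction.vonMangoldt_apply_one]
    have k2 := Finset.sum_Ico_add' (fun n : ℕ =>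
      ArithmeticFunction.vonMangoldt n ^ 2 / (n : ℝ)) 1 N 1
    rw [← k2]
    simp
  have e2 : T * (∫ x in (1 : ℝ)..(N : ℝ), fT T x) -
      ∑ n ∈ Finset.Icc 1 N, ArithmeticFunction.vonMangoldt n ^ 2 / (n : ℝ) =
      ((N : ℝ) - 1) / T - 2 * Real.log (1 + 1 / T) *
        ∑ n ∈ Finset.Ico 1 N, ArithmeticFunction.vonMangoldt (n + 1) := by
    rw [main_part hN1 hNT, e1, Finset.mul_sum, ← Finset.sum_sub_distrib]
    have k : ∀ n ∈ Finset.Ico 1 N, T * (1 / T ^ 2 +
        ArithmeticFunction.vonMangoldt (n + 1) ^ 2 / (T * (n + 1)) -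
        2 / T * Real.log (1 + 1 / T) * ArithmeticFunction.vonMangoldt (n + 1)) -
        ArithmeticFunction.vonMangoldt (n + 1) ^ 2 / ((n : ℝ) + 1) =
        1 / T - 2 * Real.log (1 + 1 / T) * ArithmeticFunction.vonMangoldt (n + 1) := by
      intro n _
      field_simp
      ring
    rw [Finset.sum_congr rfl k, Finset.sum_sub_distrib, Finset.sum_const, Nat.card_Ico,
      ← Finset.mul_sum, nsmul_eq_mul, Nat.cast_sub hN1, Nat.cast_one]
    ring
  have e3 : ∑ n ∈ Finset.Ico 1 N, ArithmeticFunction.vonMangoldt (n + 1) ≤ Chebyshev.psi T := by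
    unfold Chebyshev.psi
    rw [← hN]
    have k2 := Finset.sum_Ico_add' (fun n : ℕ => ArithmeticFunction.vonMangoldt n) 1 N 1
    rw [k2]
    apply Finset.sum_le_sum_of_subset_of_nonneg
    · intro n hn
      rw [Finset.mem_Ico] at hn
      rw [Finset.mem_Ioc]
      omega
    · intro n _ _
      exact ArithmeticFunction.vonMangoldt_nonneg
  have e4 : 0 ≤ ∑ n ∈ Finset.Ico 1 N, ArithmeticFunction.vonMangoldt (n + 1) :=
    Finset.sum_nonneg fun n _ => ArithmeticFunction.vonMangoldt_nonneg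
  have e5 : Chebyshev.psi T ≤ (Real.log 4 + 4) * T := Chebyshev.psi_le_const_mul_self hT0.le
  have e6 : Real.log (1 + 1 / T) ≤ 1 / T := by
    have := Real.log_le_sub_one_of_pos (show 0 < 1 + 1 / T by positivity)
    linarith
  have e7 : 0 ≤ Real.log (1 + 1 / T) := Real.log_nonneg (by
    have : 0 < 1 / T := by positivity
    linarith)
  have e8 : 0 ≤ ((N : ℝ) - 1) / T := by
    have : (1 : ℝ) ≤ N := by exact_mod_cast hN1
    exact div_nonneg (by linarith) hT0.le
  have e9 : ((N : ℝ) - 1) / T ≤ 1 := by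
    rw [div_le_one hT0]
    linarith
  have e10 : Real.log (1 + 1 / T) *
      ∑ n ∈ Finset.Ico 1 N, ArithmeticFunction.vonMangoldt (n + 1) ≤ Real.log 4 + 4 := by
    have k1 : Real.log (1 + 1 / T) *
        ∑ n ∈ Finset.Ico 1 N, ArithmeticFunction.vonMangoldt (n + 1) ≤
        1 / T * ((Real.log 4 + 4) * T) :=
      mul_le_mul e6 (e3.trans e5) e4 (by positivity)
    have k2 : 1 / T * ((Real.log 4 + 4) * T) = Real.log 4 + 4 := by field_simp
    linarith
  have e11 := mul_nonneg e7 e4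
  rw [e2, abs_le]
  constructor
  · nlinarith
  · nlinarith

lemma last_bound {T : ℝ} (hT : 2 ≤ T) :
    |T * ∫ x in (⌊T⌋₊ : ℝ)..T, fT T x| ≤ 64 * Real.log T ^ 2 / T := by
  have hT0 : 0 < T := by linarith
  have hN : T / 2 ≤ (⌊T⌋₊ : ℝ) := by
    have := Nat.lt_floor_add_one T
    linarith
  have hNT : (⌊T⌋₊ : ℝ) ≤ T := Nat.floor_le hT0.le
  have hl2 : Real.log 2 ≤ Real.log T := Real.log_le_log (by norm_num) hT
  have hl2' := Real.log_two_gt_d9
  have hl : Real.log (T + 1) ≤ 2 * Real.log T := by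
    have : Real.log (T + 1) ≤ Real.log (T ^ 2) := Real.log_le_log (by linarith) (by nlinarith)
    rwa [Real.log_pow] at this
  have hl0 : 0 ≤ Real.log (T + 1) := Real.log_nonneg (by linarith)
  have h1 : ‖∫ x in (⌊T⌋₊ : ℝ)..T, fT T x‖ ≤ (4 * Real.log T) ^ 2 / (T / 2) ^ 2 *
      |T - (⌊T⌋₊ : ℝ)| := by
    apply intervalIntegral.norm_integral_le_of_norm_le_const
    intro x hx
    rw [uIoc_of_le hNT] at hx
    have k1 : 1 ≤ x := by linarith [hx.1]
    have k2 := f_bound k1 hx.2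
    rw [Real.norm_eq_abs, abs_of_nonneg k2.1]
    refine k2.2.trans ?_
    have k3 : T / 2 ≤ x := by linarith [hx.1]
    gcongr
    linarith
  have h2 : |T - (⌊T⌋₊ : ℝ)| ≤ 1 := by
    rw [abs_of_nonneg (by linarith)]
    have := Nat.lt_floor_add_one T
    linarith
  rw [Real.norm_eq_abs] at h1
  have h3 : |∫ x in (⌊T⌋₊ : ℝ)..T, fT T x| ≤ (4 * Real.log T) ^ 2 / (T / 2) ^ 2 :=
    h1.trans (mul_le_of_le_one_right (by positivity) h2)
  rw [abs_mul, abs_of_pos hT0]
  calc T * |∫ x in (⌊T⌋₊ : ℝ)..T, fT T x| ≤ T * ((4 * Real.log T) ^ 2 / (T / 2) ^ 2) :=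
        mul_le_mul_of_nonneg_left h3 hT0.le
    _ = 64 * Real.log T ^ 2 / T := by
        field_simp
        ring

/-- PV/G01 -/
theorem main (h : S_LAM2) : S_G01 := by
  unfold S_G01
  unfold S_LAM2 at h
  have hlog : Tendsto (fun T : ℝ => (1 + 2 * (Real.log 4 + 4)) / Real.log T ^ 2 + 64 / T) atTop
      (𝓝 0) := by
    have h1 : Tendsto (fun T : ℝ => (1 + 2 * (Real.log 4 + 4)) / Real.log T ^ 2) atTop (𝓝 0) :=
      ((tendsto_pow_atTop two_ne_zero).comp Real.tendsto_log_atTop).const_div_atTop _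
    have h2 : Tendsto (fun T : ℝ => 64 / T) atTop (𝓝 0) := tendsto_id.const_div_atTop _
    simpa using h1.add h2
  have hdiff : Tendsto (fun T : ℝ => GV T 0 1 - (∑ n ∈ Finset.Icc 1 ⌊T⌋₊,
      ArithmeticFunction.vonMangoldt n ^ 2 / (n : ℝ)) / Real.log T ^ 2) atTop (𝓝 0) := by
    refine squeeze_zero_norm' ?_ hlog
    filter_upwards [eventually_ge_atTop 2] with T hT
    have hT0 : 0 < T := by linarith
    have hl : 0 < Real.log T := Real.log_pos (by linarith)
    have hN : T / 2 ≤ (⌊T⌋₊ : ℝ) := by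
      have := Nat.lt_floor_add_one T
      linarith
    have hNT : (⌊T⌋₊ : ℝ) ≤ T := Nat.floor_le hT0.le
    have e1 : ∫ x in (1 : ℝ)..T, fT T x =
        (∫ x in (1 : ℝ)..(⌊T⌋₊ : ℝ), fT T x) + ∫ x in (⌊T⌋₊ : ℝ)..T, fT T x :=
      (intervalIntegral.integral_add_adjacent_intervals (f_int le_rfl (by linarith) hNT)
        (f_int (by linarith) hNT le_rfl)).symm
    have e2 : GV T 0 1 = T / Real.log T ^ 2 * ∫ x in (1 : ℝ)..T, fT T x := by
      unfold GV fT
      rw [Real.rpow_zero, Real.rpow_one]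
    have b1 := main_bound (show 1 ≤ T by linarith)
    have b2 := last_bound hT
    have e3 : GV T 0 1 - (∑ n ∈ Finset.Icc 1 ⌊T⌋₊,
        ArithmeticFunction.vonMangoldt n ^ 2 / (n : ℝ)) / Real.log T ^ 2 =
        ((T * (∫ x in (1 : ℝ)..(⌊T⌋₊ : ℝ), fT T x) - ∑ n ∈ Finset.Icc 1 ⌊T⌋₊,
          ArithmeticFunction.vonMangoldt n ^ 2 / (n : ℝ)) +
          T * ∫ x in (⌊T⌋₊ : ℝ)..T, fT T x) / Real.log T ^ 2 := by
      rw [e2, e1]
      field_simp
      ring
    rw [e3, Real.norm_eq_abs, abs_div, abs_of_pos (show 0 < Real.log T ^ 2 by positivity)]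
    have b3 := (abs_add_le (T * (∫ x in (1 : ℝ)..(⌊T⌋₊ : ℝ), fT T x) -
      ∑ n ∈ Finset.Icc 1 ⌊T⌋₊, ArithmeticFunction.vonMangoldt n ^ 2 / (n : ℝ))
      (T * ∫ x in (⌊T⌋₊ : ℝ)..T, fT T x)).trans (add_le_add b1 b2)
    refine (div_le_div_of_nonneg_right b3 (by positivity)).trans (le_of_eq ?_)
    field_simp
  have := hdiff.add h
  simpa using this

end Pool.Agent.N134.PVG
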