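import Pool.Agent.N906.RS.Stm
import Pool.Agent.H126U.Nat1

/-!
# Project RS: the prime ideal theorem, counting all primes
-/

set_option autoImplicit false

namespace Pool.Agent.N134.RS

open NumberField IsDedekindDomain Filter Topology Pool.Agent.H691R3 Pool.Agent.W223.AK
  Pool.Agent.N906.RS

/-- **The prime ideal theorem.** -/
theorem pit (K : Type) [Field K] [NumberField K] : S_PIT K := by
  unfold S_PIT
  have hpi : Tendsto (fun N : ℕ => (Nat.primeCounting N : ℝ) * Real.log N / N) atTop (𝓝 1) := by
    have := Pool.Agent.Helper923.PNT.pi_tendsto.comp (tendsto_natCast_atTop_atTop (R := ℝ))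
    refine this.congr fun N => ?_
    simp only [Function.comp, Nat.floor_natCast]
  have h1 := (Pool.Agent.H126U.card_VX (K := K)).mul hpi
  rw [mul_one] at h1
  refine h1.congr' ?_
  filter_upwards [Nat.tendsto_primeCounting.eventually_gt_atTop 0] with n hn
  have hn' : (Nat.primeCounting n : ℝ) ≠ 0 := by exact_mod_cast hn.ne'
  have h2 : Set.ncard {v : Pr K | Nv v ≤ n} = (Pool.Agent.H126U.VX K n).card := by
    rw [← Set.ncard_coe_finset]
    congr 1
    ext v
    rw [Finset.mem_coe, Pool.Agent.H126U.mem_VX]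
    show (Ideal.absNorm v.asIdeal : ℝ) ≤ n ↔ Ideal.absNorm v.asIdeal ≤ n
    exact Nat.cast_le
  rw [h2]
  field_simp

end Pool.Agent.N134.RS
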