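import Mathlib
import Pool.Agent.N887.TC_BAL

/-!
# Project TC: the orientation of `m² H` for odd `m` (helper134)
-/

set_option autoImplicit false

namespace Pool.Agent.N134.TCARITH

open Finset

variable {V : Type} [Fintype V]

open scoped Classical in
theorem ncard_eq (H : SimpleGraph V) (v : V) :
    ((H.neighborSet v).ncard : ℤ) = ∑ u, if H.Adj v u then (1 : ℤ) else 0 := by
  rw [Finset.sum_boole, Set.ncard_eq_toFinset_card']
  congr 2
  ext u
  simp

open scoped Classical in
theorem core (H : SimpleGraph V) (m D : ℕ) (hm : Odd m) (y : V → V → ℤ) (s : V → ℕ)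
    (hy1 : ∀ u v, y u v = - y v u) (hy2 : ∀ u v, ¬ H.Adj u v → y u v = 0)
    (hy3 : ∀ u v, H.Adj u v → Odd (y u v) ∧ |y u v| ≤ (m * m : ℤ))
    (hs : ∀ v, s v ≤ m)
    (hA : ∀ v, ((H.neighborSet v).ncard : ℤ) * (m * m) + ∑ u, y v u ≤ 2 * (D * s v))
    (hB : ∀ v, ((H.neighborSet v).ncard : ℤ) * (m * m) - ∑ u, y v u ≤ 2 * (D * (m - s v))) :
    ∃ (a : V → V → ℕ), (∀ u v, ¬ H.Adj u v → a u v = 0) ∧
      (∀ u v, H.Adj u v → a u v + a v u = m * m) ∧ (∀ v, ∑ u, a v u ≤ D * s v) ∧
      ∀ v, ∑ u, a u v ≤ D * (m - s v) := by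
  have h2 : ∀ u v, 2 * ((if H.Adj u v then ((m * m + y u v) / 2).toNat else 0 : ℕ) : ℤ) =
      (if H.Adj u v then (1 : ℤ) else 0) * (m * m) + y u v := by
    intro u v
    by_cases h : H.Adj u v
    · simp only [if_pos h]
      obtain ⟨h3, h4⟩ := hy3 u v h
      rw [abs_le] at h4
      have hmm : Odd ((m : ℤ) * m) := by
        have : Odd (m : ℤ) := by exact_mod_cast hm
        exact this.mul this
      have h5 : Even ((m : ℤ) * m + y u v) := hmm.add_odd h3
      have h6 : 2 ∣ ((m : ℤ) * m + y u v) := h5.two_dvd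
      rw [Int.toNat_of_nonneg (by omega)]
      rw [Int.mul_ediv_cancel' h6]
      ring
    · simp only [if_neg h, hy2 u v h]
      simp
  refine ⟨fun u v => if H.Adj u v then ((m * m + y u v) / 2).toNat else 0, ?_, ?_, ?_, ?_⟩
  · intro u v h
    simp only [if_neg h]
  · intro u v h
    have h3 := h2 u v
    have h4 := h2 v u
    have h5 := hy1 u v
    simp only [if_pos h, if_pos h.symm] at h3 h4 ⊢
    zify
    linarith
  · intro v
    have h3 : 2 * ((∑ u, (if H.Adj v u then ((m * m + y v u) / 2).toNat else 0 : ℕ) : ℕ) : ℤ) =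
        ((H.neighborSet v).ncard : ℤ) * (m * m) + ∑ u, y v u := by
      rw [ncard_eq, Finset.sum_mul, ← Finset.sum_add_distrib, Nat.cast_sum, Finset.mul_sum]
      exact Finset.sum_congr rfl fun u _ => h2 v u
    have h4 := hA v
    rw [← h3] at h4
    zify
    push_cast at h4 ⊢
    linarith
  · intro v
    have h3 : 2 * ((∑ u, (if H.Adj u v then ((m * m + y u v) / 2).toNat else 0 : ℕ) : ℕ) : ℤ) =
        ((H.neighborSet v).ncard : ℤ) * (m * m) - ∑ u, y v u := by
      rw [ncard_eq, Finset.sum_mul, ← Finset.sum_sub_distrib, Nat.cast_sum, Finset.mul_sum]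
      refine Finset.sum_congr rfl fun u _ => ?_
      rw [h2 u v, hy1 u v]
      simp only [H.adj_comm u v]
      ring
    have h4 := hB v
    rw [← h3] at h4
    zify [hs v]
    push_cast at h4 ⊢
    linarith

/-- parity of the row sums of an orientation -/
theorem par (J : SimpleGraph V) (y : V → V → ℤ) (hy2 : ∀ u v, ¬ J.Adj u v → y u v = 0)
    (hy3 : ∀ u v, J.Adj u v → y u v = 1 ∨ y u v = -1) (v : V)
    (h : Odd (J.neighborSet v).ncard) : Odd (∑ u, y v u) := by
  classical
  have h1 : (2 : ℤ) ∣ (∑ u, y v u) - ((J.neighborSet v).ncard : ℤ) := by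
    rw [ncard_eq, ← Finset.sum_sub_distrib]
    refine Finset.dvd_sum fun u _ => ?_
    by_cases hu : J.Adj v u
    · simp only [if_pos hu]
      rcases hy3 v u hu with h | h <;> rw [h] <;> norm_num
    · simp only [if_neg hu, hy2 v u hu]
      norm_num
  have h2 : Odd ((J.neighborSet v).ncard : ℤ) := by exact_mod_cast h
  obtain ⟨k, hk⟩ := h1
  obtain ⟨l, hl⟩ := h2
  exact ⟨k + l, by linarith⟩

theorem arith' (bal : ∀ H : SimpleGraph V, ∃ y : V → V → ℤ, (∀ u v, y u v = - y v u) ∧
      (∀ u v, ¬ H.Adj u v → y u v = 0) ∧ (∀ u v, H.Adj u v → y u v = 1 ∨ y u v = -1) ∧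
      ∀ v, (Even (H.neighborSet v).ncard → ∑ u, y v u = 0) ∧ |∑ u, y v u| ≤ 1)
    (H J : SimpleGraph V) (d m D : ℕ) (hm : Odd m)
    (hdm : d + 1 ≤ m) (hD : d * m ≤ D) (hH : ∀ v, (H.neighborSet v).ncard ≤ d) (T Z : Set V)
    (h1 : ∀ v, (H.neighborSet v).ncard = d → v ∈ T ∨ v ∈ Z) (h2 : ∀ z ∈ Z, z ∉ T)
    (h3 : ∀ z ∈ Z, ∀ z' ∈ Z, H.Reachable z z' → z = z')
    (h4 : ∀ z ∈ Z, Even d ∧ d * m + 1 ≤ D ∧ ∀ v, H.Reachable z v → (H.neighborSet v).ncard = d)
    (hJ : J ≤ H) (hJT : ∀ v, Odd (J.neighborSet v).ncard ↔ v ∈ T) :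
    ∃ (a : V → V → ℕ) (s : V → ℕ), (∀ v, s v ≤ m) ∧ (∀ u v, ¬ H.Adj u v → a u v = 0) ∧
      (∀ u v, H.Adj u v → a u v + a v u = m * m) ∧ (∀ v, ∑ u, a v u ≤ D * s v) ∧
      ∀ v, ∑ u, a u v ≤ D * (m - s v) := by
  classical
  rcases Nat.eq_zero_or_pos d with hd0 | hd0
  · -- no edges
    have hno : ∀ u v, ¬ H.Adj u v := by
      intro u v h
      have h5 := hH u
      rw [hd0, Nat.le_zero, Set.ncard_eq_zero (Set.toFinite _)] at h5
      have : v ∈ H.neighborSet u := h
      rw [h5] at this
      exact this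
    exact ⟨fun _ _ => 0, fun _ => 0, fun _ => Nat.zero_le _, fun _ _ _ => rfl,
      fun u v h => absurd h (hno u v), fun v => by simp, fun v => by simp⟩
  -- the functions
  obtain ⟨yJ, j1, j2, j3, j4⟩ := bal J
  obtain ⟨y', e1, e2, e3, e4⟩ := bal (if Even d then H else H \ J)
  have hZ : ∀ z ∈ Z, ∃ u, H.Adj z u := by
    intro z hz
    have h5 := (h4 z hz).2.2 z (SimpleGraph.Reachable.refl z)
    have h6 : (H.neighborSet z).Nonempty := by
      rw [← Set.ncard_pos (Set.toFinite _)]
      omega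
    exact h6
  choose! n hn using hZ
  set t : V → V → ℤ := fun z u => if H.Adj z u then (if u = n z then (d : ℤ) else m - 1) else 0 with ht
  have hmZ : (1 : ℤ) ≤ m := by exact_mod_cast (by omega : 1 ≤ m)
  have hdmZ : (d : ℤ) + 1 ≤ m := by exact_mod_cast hdm
  have hd0Z : (1 : ℤ) ≤ d := by exact_mod_cast hd0
  have hDZ : (d : ℤ) * m ≤ D := by exact_mod_cast hD
  have hmo : Odd (m : ℤ) := by exact_mod_cast hm
  have ht0 : ∀ z u, 0 ≤ t z u ∧ t z u ≤ m - 1 := by
    intro z u
    simp only [ht]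
    split_ifs <;> constructor <;> linarith
  have htn : ∀ z u, ¬ H.Adj z u → t z u = 0 := fun z u h => by simp only [ht, if_neg h]
  set tau : V → V → ℤ := fun u v => (if u ∈ Z then t u v else 0) - (if v ∈ Z then t v u else 0) with htau
  have hsep : ∀ u v, H.Adj u v → u ∈ Z → v ∉ Z := by
    intro u v h hu hv
    exact h.ne (h3 u hu v hv h.reachable)
  -- the degree sum
  have hdiff : ∀ v, ((H \ J).neighborSet v).ncard = (H.neighborSet v).ncard - (J.neighborSet v).ncard := by
    intro v
    have : (H \ J).neighborSet v = H.neighborSet v \ J.neighborSet v := by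
      ext u; simp
    rw [this, Set.ncard_sdiff _ (Set.toFinite _)]
    intro u hu
    exact hJ hu
  have hJle : ∀ v, (J.neighborSet v).ncard ≤ (H.neighborSet v).ncard := fun v =>
    Set.ncard_le_ncard (fun u hu => hJ hu) (Set.toFinite _)
  have hZe : ¬ Even d → ∀ z, z ∉ Z := fun h z hz => h (h4 z hz).1
  have hH' : (if Even d then H else H \ J) ≤ H := by
    split_ifs
    · exact le_rfl
    · exact sdiff_le
  -- row sums of `y'`
  have hE1 : ∀ v, |∑ u, y' v u| ≤ 1 := fun v => (e4 v).2
  have hE0 : ∀ v, (H.neighborSet v).ncard = d → ∑ u, y' v u = 0 := by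
    intro v hv
    refine (e4 v).1 ?_
    by_cases he : Even d
    · rw [if_pos he, hv]; exact he
    · rw [if_neg he, hdiff v, hv]
      have hT : v ∈ T := (h1 v hv).resolve_right (hZe he v)
      have hodd := (hJT v).2 hT
      have := hJle v
      rw [hv] at this
      rw [Nat.not_even_iff_odd] at he
      exact Nat.Odd.sub_odd he hodd
  -- row sums of `yJ`
  have hS1 : ∀ v, v ∈ T → (∑ u, yJ v u = 1 ∨ ∑ u, yJ v u = -1) := by
    intro v hv
    have h5 := (j4 v).2
    have h6 := par J yJ j2 j3 v ((hJT v).2 hv)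
    rw [abs_le] at h5
    obtain ⟨k, hk⟩ := h6
    omega
  have hS0 : ∀ v, v ∉ T → ∑ u, yJ v u = 0 := by
    intro v hv
    refine (j4 v).1 ?_
    rw [← Nat.not_odd_iff_even]
    exact fun h => hv ((hJT v).1 h)
  -- row sums of `tau`
  have hT1 : ∀ v ∈ Z, ∑ u, tau v u = d * m + 1 - m := by
    intro v hv
    have h5 : ∀ u, tau v u = (if H.Adj v u then (1 : ℤ) else 0) * (m - 1) +
        (if u = n v then (d : ℤ) - (m - 1) else 0) := by
      intro u
      simp only [htau, if_pos hv, ht]
      by_cases hu : H.Adj v u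
      · rw [if_neg (hsep v u hu hv)]
        simp only [if_pos hu]
        split_ifs <;> ring
      · have h6 : u ≠ n v := fun h => hu (h ▸ hn v hv)
        have h7 : ¬ H.Adj u v := fun h => hu h.symm
        simp only [if_neg hu, if_neg h6, if_neg h7]
        simp
    simp only [h5]
    rw [Finset.sum_add_distrib, ← Finset.sum_mul, ← ncard_eq, Finset.sum_ite_eq' Finset.univ (n v),
      if_pos (Finset.mem_univ _), (h4 v hv).2.2 v (SimpleGraph.Reachable.refl v)]
    ring
  have hT2 : ∀ v, v ∉ Z → ∀ z ∈ Z, H.Adj z v → ∑ u, tau v u = - t z v := by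
    intro v hv z hz hzv
    rw [Finset.sum_eq_single z]
    · simp only [htau, if_neg hv, if_pos hz]; ring
    · intro u _ huz
      simp only [htau, if_neg hv]
      by_cases hu : u ∈ Z
      · rw [if_pos hu]
        by_cases huv : H.Adj u v
        · exact absurd (h3 u hu z hz (huv.reachable.trans hzv.symm.reachable)) huz
        · rw [htn u v huv]; simp
      · rw [if_neg hu]; simp
    · intro h; exact absurd (Finset.mem_univ _) h
  have hT3 : ∀ v, v ∉ Z → (∀ z ∈ Z, ¬ H.Adj z v) → ∑ u, tau v u = 0 := by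
    intro v hv hz
    refine Finset.sum_eq_zero fun u _ => ?_
    simp only [htau, if_neg hv]
    by_cases hu : u ∈ Z
    · rw [if_pos hu, htn u v (hz u hu)]; simp
    · rw [if_neg hu]; simp
  -- the orientation
  set y : V → V → ℤ := fun u v => y' u v + d * m * yJ u v + tau u v with hy
  have hX : ∀ v, ∑ u, y v u = ∑ u, y' v u + d * m * ∑ u, yJ v u + ∑ u, tau v u := by
    intro v
    simp only [hy]
    rw [Finset.sum_add_distrib, Finset.sum_add_distrib, Finset.mul_sum]
  set σ : V → ℤ := fun v => if v ∈ T then ∑ u, yJ v u else 1 with hσ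
  have hσ1 : ∀ v, σ v = 1 ∨ σ v = -1 := by
    intro v
    by_cases hv : v ∈ T
    · simp only [hσ, if_pos hv]; exact hS1 v hv
    · simp only [hσ, if_neg hv]; exact Or.inl trivial
  have hs2 : ∀ v, 2 * (((m + σ v) / 2).toNat : ℤ) = m + σ v := by
    intro v
    obtain ⟨k, hk⟩ := hmo
    rcases hσ1 v with h | h <;> rw [h] <;> omega
  have hs3 : ∀ v, ((m + σ v) / 2).toNat ≤ m := by
    intro v
    have := hs2 v
    zify
    rcases hσ1 v with h | h <;> rw [h] at this ⊢ <;> linarith
  have hA1 : ∀ u v, y u v = - y v u := by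
    intro u v
    simp only [hy, htau]
    rw [e1 u v, j1 u v]
    ring
  have hA2 : ∀ u v, ¬ H.Adj u v → y u v = 0 := by
    intro u v huv
    have hvu : ¬ H.Adj v u := fun h => huv h.symm
    simp only [hy, htau]
    rw [e2 u v (fun h => huv (hH' h)), j2 u v (fun h => huv (hJ h)), htn u v huv, htn v u hvu]
    simp
  have htau2 : ∀ u v, H.Adj u v → |tau u v| ≤ m - 1 ∧ ((∃ z, z ∈ Z) → Even (tau u v)) ∧
      ((∀ z, z ∉ Z) → tau u v = 0) := by
    intro u v huv
    have hev : (∃ z, z ∈ Z) → ∀ a b, Even (t a b) := by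
      rintro ⟨z, hz⟩ a b
      have hd : Even (d : ℤ) := by exact_mod_cast (h4 z hz).1
      have hm1 : Even ((m : ℤ) - 1) := hmo.sub_odd odd_one
      simp only [ht]
      split_ifs
      · exact hd
      · exact hm1
      · exact Even.zero
    refine ⟨?_, fun hz => ?_, fun hz => ?_⟩
    · simp only [htau]
      rw [abs_le]
      by_cases hu : u ∈ Z
      · have hv := hsep u v huv hu
        rw [if_pos hu, if_neg hv]
        constructor <;> linarith [(ht0 u v).1, (ht0 u v).2]
      · rw [if_neg hu]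
        have := ht0 v u
        split_ifs <;> constructor <;> linarith [(ht0 v u).1, (ht0 v u).2]
    · simp only [htau]
      have := hev hz
      refine Even.sub ?_ ?_ <;> split_ifs <;> first | exact this _ _ | exact Even.zero
    · simp only [htau]
      rw [if_neg (hz u), if_neg (hz v)]; rfl
  have hA3 : ∀ u v, H.Adj u v → Odd (y u v) ∧ |y u v| ≤ (m * m : ℤ) := by
    intro u v huv
    obtain ⟨t1, t2, t3⟩ := htau2 u v huv
    have hy'1 : |y' u v| ≤ 1 := by
      by_cases h : (if Even d then H else H \ J).Adj u v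
      · rcases e3 u v h with h | h <;> rw [h] <;> norm_num
      · rw [e2 u v h]; norm_num
    have hyJ1 : |yJ u v| ≤ 1 := by
      by_cases h : J.Adj u v
      · rcases j3 u v h with h | h <;> rw [h] <;> norm_num
      · rw [j2 u v h]; norm_num
    refine ⟨?_, ?_⟩
    · by_cases he : Even d
      · have hdz : Even (d : ℤ) := by exact_mod_cast he
        have h5 : Odd (y' u v) := by
          rcases e3 u v (by rw [if_pos he]; exact huv) with h | h <;> rw [h]
          · exact odd_one
          · exact odd_one.neg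
        have h6 : Even ((d : ℤ) * m * yJ u v) := (hdz.mul_right _).mul_right _
        have h7 : Even (tau u v) := by
          by_cases hz : ∃ z, z ∈ Z
          · exact t2 hz
          · push Not at hz
            rw [t3 hz]; exact Even.zero
        exact (h5.add_even h6).add_even h7
      · have hdz : Odd (d : ℤ) := by
          rw [Nat.not_even_iff_odd] at he
          exact_mod_cast he
        have h7 : tau u v = 0 := t3 (hZe he)
        simp only [hy]
        rw [h7, add_zero]
        by_cases hj : J.Adj u v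
        · have h8 : y' u v = 0 := by
            refine e2 u v ?_
            rw [if_neg he]
            intro h
            exact h.2 hj
          rw [h8, zero_add]
          refine (hdz.mul hmo).mul ?_
          rcases j3 u v hj with h | h <;> rw [h]
          · exact odd_one
          · exact odd_one.neg
        · rw [j2 u v hj, mul_zero, add_zero]
          have h9 : (if Even d then H else H \ J).Adj u v := by
            rw [if_neg he]
            exact ⟨huv, hj⟩
          rcases e3 u v h9 with h | h <;> rw [h]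
          · exact odd_one
          · exact odd_one.neg
    · simp only [hy]
      have h5 : |(d : ℤ) * m * yJ u v| ≤ d * m := by
        rw [abs_mul, abs_of_nonneg (by positivity)]
        exact mul_le_of_le_one_right (by positivity) hyJ1
      calc |y' u v + d * m * yJ u v + tau u v| ≤ |y' u v + d * m * yJ u v| + |tau u v| := abs_add_le _ _
        _ ≤ |y' u v| + |(d : ℤ) * m * yJ u v| + |tau u v| := by gcongr; exact abs_add_le _ _
        _ ≤ 1 + d * m + (m - 1) := by gcongr
        _ = (d + 1) * m := by ring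
        _ ≤ m * m := by gcongr
  -- the two inequalities
  have hAB : ∀ v, ((H.neighborSet v).ncard : ℤ) * (m * m) + ∑ u, y v u ≤ D * (m + σ v) ∧
      ((H.neighborSet v).ncard : ℤ) * (m * m) - ∑ u, y v u ≤ D * (m - σ v) := by
    intro v
    rw [hX v]
    set p := (H.neighborSet v).ncard with hp
    have hE1v := hE1 v
    rw [abs_le] at hE1v
    have hpl : 0 ≤ (m : ℤ) + σ v ∧ 0 ≤ (m : ℤ) - σ v := by
      rcases hσ1 v with h | h <;> rw [h] <;> constructor <;> linarith
    have hDp : (d : ℤ) * m * (m + σ v) ≤ D * (m + σ v) := mul_le_mul_of_nonneg_right hDZ hpl.1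
    have hDm : (d : ℤ) * m * (m - σ v) ≤ D * (m - σ v) := mul_le_mul_of_nonneg_right hDZ hpl.2
    by_cases hvZ : v ∈ Z
    · -- case 1
      have hpd : p = d := (h4 v hvZ).2.2 v (SimpleGraph.Reachable.refl v)
      have hvT := h2 v hvZ
      have hs : σ v = 1 := by simp only [hσ, if_neg hvT]
      have hD1 : (d : ℤ) * m + 1 ≤ D := by exact_mod_cast (h4 v hvZ).2.1
      rw [hE0 v hpd, hS0 v hvT, hT1 v hvZ, hpd, hs]
      have h5 : ((d : ℤ) * m + 1) * (m + 1) ≤ D * (m + 1) := mul_le_mul_of_nonneg_right hD1 (by linarith)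
      have h6 : ((d : ℤ) * m + 1) * (m - 1) ≤ D * (m - 1) := mul_le_mul_of_nonneg_right hD1 (by linarith)
      constructor <;> nlinarith
    · by_cases hz : ∃ z ∈ Z, H.Adj z v
      · -- case 2
        obtain ⟨z, hz, hzv⟩ := hz
        have hpd : p = d := (h4 z hz).2.2 v hzv.reachable
        have hvT : v ∈ T := (h1 v hpd).resolve_right hvZ
        have hs : σ v = ∑ u, yJ v u := by simp only [hσ, if_pos hvT]
        have hD1 : (d : ℤ) * m + 1 ≤ D := by exact_mod_cast (h4 z hz).2.1
        rw [hE0 v hpd, ← hs, hT2 v hvZ z hz hzv, hpd]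
        obtain ⟨t0, t1⟩ := ht0 z v
        have h5 : ((d : ℤ) * m + 1) * (m + σ v) ≤ D * (m + σ v) := mul_le_mul_of_nonneg_right hD1 hpl.1
        have h6 : ((d : ℤ) * m + 1) * (m - σ v) ≤ D * (m - σ v) := mul_le_mul_of_nonneg_right hD1 hpl.2
        rcases hσ1 v with h | h <;> rw [h] at h5 h6 ⊢ <;> constructor <;> nlinarith
      · push Not at hz
        rw [hT3 v hvZ hz]
        by_cases hpd : p = d
        · -- case 3
          have hvT : v ∈ T := (h1 v hpd).resolve_right hvZ
          have hs : σ v = ∑ u, yJ v u := by simp only [hσ, if_pos hvT]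
          rw [hE0 v hpd, ← hs, hpd]
          constructor <;> nlinarith
        · -- case 4
          have hp1 : (p : ℤ) ≤ d - 1 := by
            have := hH v
            have h5 : p + 1 ≤ d := by omega
            have h6 : ((p + 1 : ℕ) : ℤ) ≤ d := by exact_mod_cast h5
            push_cast at h6
            linarith
          have h5 : (p : ℤ) * (m * m) ≤ (d - 1) * (m * m) := mul_le_mul_of_nonneg_right hp1 (by positivity)
          have h6 : ((d : ℤ) + 1) * m ≤ m * m := mul_le_mul_of_nonneg_right hdmZ (by linarith)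
          have h7 : (0 : ℤ) ≤ d * m := by positivity
          have h8 : (1 : ℤ) ≤ m * m := by nlinarith
          by_cases hvT : v ∈ T
          · have hs : σ v = ∑ u, yJ v u := by simp only [hσ, if_pos hvT]
            rw [← hs]
            constructor <;> nlinarith
          · have hs : σ v = 1 := by simp only [hσ, if_neg hvT]
            rw [hS0 v hvT, hs]
            rw [hs] at hDp hDm
            constructor <;> nlinarith
  obtain ⟨a, a1, a2, a3, a4⟩ := core H m D hm y (fun v => ((m + σ v) / 2).toNat) hA1 hA2 hA3 hs3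
    (fun v => by
      have h5 := (hAB v).1
      have h6 := hs2 v
      calc _ ≤ (D : ℤ) * (m + σ v) := h5
        _ = _ := by
          show (D : ℤ) * (m + σ v) = 2 * (D * (((m + σ v) / 2).toNat : ℤ))
          linear_combination (-(D : ℤ)) * h6)
    (fun v => by
      have h5 := (hAB v).2
      have h6 := hs2 v
      calc _ ≤ (D : ℤ) * (m - σ v) := h5
        _ = _ := by
          show (D : ℤ) * (m - σ v) = 2 * (D * (m - (((m + σ v) / 2).toNat : ℤ)))
          linear_combination (D : ℤ) * h6)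
  exact ⟨a, _, hs3, a1, a2, a3, a4⟩

/-- The orientation of `m² H` for odd `m`. -/
theorem arith {V : Type} [Fintype V] (H J : SimpleGraph V) (d m D : ℕ) (hm : Odd m)
    (hdm : d + 1 ≤ m) (hD : d * m ≤ D) (hH : ∀ v, (H.neighborSet v).ncard ≤ d) (T Z : Set V)
    (h1 : ∀ v, (H.neighborSet v).ncard = d → v ∈ T ∨ v ∈ Z) (h2 : ∀ z ∈ Z, z ∉ T)
    (h3 : ∀ z ∈ Z, ∀ z' ∈ Z, H.Reachable z z' → z = z')
    (h4 : ∀ z ∈ Z, Even d ∧ d * m + 1 ≤ D ∧ ∀ v, H.Reachable z v → (H.neighborSet v).ncard = d)
    (hJ : J ≤ H) (hJT : ∀ v, Odd (J.neighborSet v).ncard ↔ v ∈ T) :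
    ∃ (a : V → V → ℕ) (s : V → ℕ), (∀ v, s v ≤ m) ∧ (∀ u v, ¬ H.Adj u v → a u v = 0) ∧
      (∀ u v, H.Adj u v → a u v + a v u = m * m) ∧ (∀ v, ∑ u, a v u ≤ D * s v) ∧
      ∀ v, ∑ u, a u v ≤ D * (m - s v) :=
  arith' (fun H => Pool.Agent.N887.TCBAL.bal H) H J d m D hm hdm hD hH T Z h1 h2 h3 h4 hJ hJT

end Pool.Agent.N134.TCARITH
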